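import Pool.Agent.Helper42.CKC.Fin
import Pool.Agent.Helper65.CKC.DatS
set_option autoImplicit false
open Complex MeasureTheory Metric Set
open scoped Real ComplexConjugate

/-!
# Project CKC: the inequality on the arc from the six certificates
-/

namespace Pool.Agent.Helper42.CKC

open Pool.Agent.Helper65.CKC (PtArc ND)

/-- **the inequality on the arc** -/
theorem ptArc_of {D : DatC} {v0 v1 v2 : Vx} {Ln Ld Ln' Ld' : ℤ} (o : D.Ok v0 v1 v2 Ln Ld Ln' Ld')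
    (hI : SideP D.K Ln Ld v0 v1 v2 (D.tIn v0) (D.tIn v1) (D.tIn v2))
    (hO : SideP D.K Ln' Ld' v0 v1 v2 (D.tOut v0) (D.tOut v1) (D.tOut v2)) {p0 p1 p2 q0 q1 q2 : ℝ}
    (e0 : D.p0 / D.rd = p0) (e1 : D.p1 / D.rd = p1) (e2 : D.p2 / D.rd = p2)
    (e3 : D.q0 / D.rd = q0) (e4 : D.q1 / D.rd = q1) (e5 : D.q2 / D.rd = q2) :
    PtArc D v0 v1 v2 p0 p1 p2 q0 q1 q2 := by
  subst e0 e1 e2 e3 e4 e5
  obtain ⟨B, hB, h⟩ := o.point hI hO
  intro τ s0 s1 s2 h0 h1 h2 hs hτ hσ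
  have e : ND D v0 v1 v2 τ s0 s1 s2 = D.NN v0 v1 v2 τ s0 s1 s2 := by
    funext x q η
    unfold ND DatC.NN
    ring
  rw [e]
  exact ⟨B, _, _, _, _, _, _, hB, (h τ s0 s1 s2 h0 h1 h2 hs hτ hσ).2⟩

end Pool.Agent.Helper42.CKC
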