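import Pool.Agent.Helper71.Sos.Blk
import Pool.Agent.Helper99.CKC.Null
import Pool.Agent.Helper11.CKC.MDataC
import Pool.Agent.Helper71.CK.Point
set_option autoImplicit false
open Complex MeasureTheory Metric Set
open scoped Real ComplexConjugate

/-!
# Project CKC: complex expressions of the full strip certificates

Variables `l`, `S = sin (η/2)`, `C = cos (η/2)`, `p = S C q` (weight 2), `x`.
-/

namespace Pool.Agent.Helper42.CKC

open Pool.Sos71 Pool.EK71 Pool.Agent.Helper52.EK Pool.Agent.Helper2.EK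
open Pool.Agent.Helper69.EK3 (AP aev af apE apE_re)

/-! ### complex expressions -/

structure CX where
  r : Ex
  i : Ex

namespace CX

noncomputable def v (y : Pnt) (a : CX) : ℂ := ⟨a.r.re y, a.i.re y⟩

def add (a b : CX) : CX := ⟨Ex.add a.r b.r, Ex.add a.i b.i⟩
def mul (a b : CX) : CX :=
  ⟨Ex.add (Ex.mul a.r b.r) (Ex.sc (-1) (Ex.mul a.i b.i)), Ex.add (Ex.mul a.r b.i) (Ex.mul a.i b.r)⟩
/-- conjugate -/
def cj (a : CX) : CX := ⟨a.r, Ex.sc (-1) a.i⟩
/-- times `i` -/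
def mI (a : CX) : CX := ⟨Ex.sc (-1) a.i, a.r⟩
/-- real factor -/
def rm (p : Ex) (a : CX) : CX := ⟨Ex.mul p a.r, Ex.mul p a.i⟩
/-- integer factor -/
def sc (z : ℤ) (a : CX) : CX := ⟨Ex.sc z a.r, Ex.sc z a.i⟩
/-- the factor `z + i t` -/
def sc2 (z t : ℤ) (a : CX) : CX :=
  ⟨Ex.add (Ex.sc z a.r) (Ex.sc (-t) a.i), Ex.add (Ex.sc z a.i) (Ex.sc t a.r)⟩
/-- the square of the norm -/
def nsq (a : CX) : Ex := Ex.add (Ex.pow a.r 2) (Ex.pow a.i 2)

def pw (a : CX) : ℕ → CX
  | 0 => ⟨Ex.lit 1, Ex.lit 0⟩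
  | 1 => a
  | n + 2 => mul a (pw a (n + 1))

def sum {ι : Type} (f : ι → CX) : List ι → CX
  | [] => ⟨Ex.lit 0, Ex.lit 0⟩
  | [t] => f t
  | t :: s :: L => add (f t) (sum f (s :: L))

variable (y : Pnt) (a b : CX)

theorem v_add : v y (add a b) = v y a + v y b := rfl

theorem v_mul : v y (mul a b) = v y a * v y b := by
  apply Complex.ext
  · show a.r.re y * b.r.re y + ((-1 : ℤ) : ℝ) * (a.i.re y * b.i.re y) = _
    rw [mul_re]
    show _ = a.r.re y * b.r.re y - a.i.re y * b.i.re y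
    push_cast
    ring
  · rfl

theorem v_cj : v y (cj a) = conj (v y a) := by
  apply Complex.ext
  · rfl
  · show ((-1 : ℤ) : ℝ) * a.i.re y = - a.i.re y
    push_cast
    ring

theorem v_mI : v y (mI a) = I * v y a := by
  apply Complex.ext
  · show ((-1 : ℤ) : ℝ) * a.i.re y = _
    rw [I_mul_re]
    show _ = - a.i.re y
    push_cast
    ring
  · rw [I_mul_im]
    rfl

theorem v_rm (p : Ex) : v y (rm p a) = (p.re y : ℂ) * v y a := by
  apply Complex.ext
  · rw [re_ofReal_mul]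
    rfl
  · rw [im_ofReal_mul]
    rfl

theorem v_sc (z : ℤ) : v y (sc z a) = (z : ℂ) * v y a := by
  have e : (z : ℂ) = ((z : ℝ) : ℂ) := by push_cast; rfl
  rw [e]
  apply Complex.ext
  · rw [re_ofReal_mul]
    rfl
  · rw [im_ofReal_mul]
    rfl

theorem v_sc2 (z t : ℤ) : v y (sc2 z t a) = ((z : ℂ) + t * I) * v y a := by
  apply Complex.ext
  · show (z : ℝ) * a.r.re y + ((-t : ℤ) : ℝ) * a.i.re y = _
    rw [mul_re]
    simp only [add_re, add_im, mul_re, mul_im, intCast_re, intCast_im, I_re, I_im]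
    show _ = _ * a.r.re y - _ * a.i.re y
    push_cast
    ring
  · show (z : ℝ) * a.i.re y + (t : ℝ) * a.r.re y = _
    rw [mul_im]
    simp only [add_re, add_im, mul_re, mul_im, intCast_re, intCast_im, I_re, I_im]
    show _ = _ * a.i.re y + _ * a.r.re y
    ring

theorem v_nsq : (nsq a).re y = ‖v y a‖ ^ 2 := by
  rw [← normSq_eq_norm_sq, normSq_apply]
  show a.r.re y ^ 2 + a.i.re y ^ 2 = a.r.re y * a.r.re y + a.i.re y * a.i.re y
  ring

theorem v_pw (n : ℕ) : v y (pw a n) = v y a ^ n := by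
  induction n with
  | zero =>
    rw [pow_zero]
    apply Complex.ext
    · show ((1 : ℤ) : ℝ) = 1
      norm_num
    · show ((0 : ℤ) : ℝ) = 0
      norm_num
  | succ n ih =>
    cases n with
    | zero => rw [zero_add, pow_one]; rfl
    | succ n =>
      have : pw a (n + 1 + 1) = mul a (pw a (n + 1)) := rfl
      rw [this, v_mul, ih, pow_succ' _ (n + 1)]

theorem v_sum {ι : Type} (f : ι → CX) (L : List ι) :
    v y (sum f L) = (L.map fun t => v y (f t)).sum := by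
  induction L with
  | nil =>
    apply Complex.ext
    · show ((0 : ℤ) : ℝ) = 0
      norm_num
    · show ((0 : ℤ) : ℝ) = 0
      norm_num
  | cons t L ih =>
    cases L with
    | nil => simp [sum]
    | cons s L =>
      rw [sum, v_add, ih]
      simp

theorem re_v : (v y a).re = a.r.re y := rfl

end CX

/-! ### the point -/

/-- `p = S C q` -/
noncomputable def pp (q : ℂ) (η : ℝ) : ℂ := ((Real.sin (η / 2) * Real.cos (η / 2) : ℝ) : ℂ) * q

/-- the point of the values -/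
noncomputable def pt7 (l η : ℝ) (q x : ℂ) : Pnt :=
  ⟨l, Real.sin (η / 2), Real.cos (η / 2), (pp q η).re, (pp q η).im, x.re, x.im⟩

/-- the direction `sin η + i cos η` -/
noncomputable def ee (η : ℝ) : ℂ := (Real.sin η : ℂ) + (Real.cos η : ℂ) * I

/-- `w` -/
noncomputable def ww (q x : ℂ) (η : ℝ) : ℂ := ee η ^ 2 + (1 + ee η ^ 2) * (2 * x + q)

/-- `w` in the rotating frame -/
noncomputable def wt (q x : ℂ) (η : ℝ) : ℂ :=
  ee η + 4 * ((Real.sin η : ℂ) * x + pp q η)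

theorem ee_norm (η : ℝ) : ‖ee η‖ = 1 := by
  have h : ‖ee η‖ ^ 2 = 1 := by
    rw [← normSq_eq_norm_sq, normSq_apply]
    unfold ee
    simp only [add_re, add_im, mul_re, mul_im, ofReal_re, ofReal_im, I_re, I_im, mul_zero,
      mul_one, sub_zero, add_zero, zero_add]
    nlinarith [Real.sin_sq_add_cos_sq η]
  have h2 := norm_nonneg (ee η)
  nlinarith

theorem ee_conj (η : ℝ) : conj (ee η) * ee η = 1 := by
  rw [mul_comm, mul_conj, normSq_eq_norm_sq, ee_norm]
  norm_num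

theorem ee_sq (η : ℝ) : ee η ^ 2 = e0 (Real.sin η) (Real.cos η) := by
  unfold ee e0
  linear_combination ((Real.cos η : ℂ) ^ 2 + (Real.sin η : ℂ) ^ 2) * I_sq

theorem one_add_ee (η : ℝ) : 1 + ee η ^ 2 = 2 * (Real.sin η : ℂ) * ee η := by
  have h : ((Real.sin η : ℂ)) ^ 2 + ((Real.cos η : ℂ)) ^ 2 = 1 := by
    have := Real.sin_sq_add_cos_sq η
    exact_mod_cast this
  unfold ee
  linear_combination (Real.cos η : ℂ) ^ 2 * I_sq - h

theorem sin_half (η : ℝ) : Real.sin η = 2 * Real.sin (η / 2) * Real.cos (η / 2) := by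
  have := Real.sin_two_mul (η / 2)
  rwa [mul_div_cancel₀ _ (two_ne_zero)] at this

theorem cos_half (η : ℝ) : Real.cos η = Real.cos (η / 2) ^ 2 - Real.sin (η / 2) ^ 2 := by
  have := Real.cos_two_mul' (η / 2)
  rwa [mul_div_cancel₀ _ (two_ne_zero)] at this

theorem ww_wt (q x : ℂ) (η : ℝ) : ww q x η = ee η * wt q x η := by
  unfold ww wt pp
  rw [one_add_ee, sin_half η]
  push_cast
  ring

theorem norm_ww (q x : ℂ) (η : ℝ) : ‖ww q x η‖ = ‖wt q x η‖ := by
  rw [ww_wt, norm_mul, ee_norm, one_mul]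

/-- rotation of a difference with `e₀` -/
theorem norm_rot (z : ℂ) (η : ℝ) : ‖ee η * z - ee η ^ 2‖ = ‖z - ee η‖ := by
  have : ee η * z - ee η ^ 2 = ee η * (z - ee η) := by ring
  rw [this, norm_mul, ee_norm, one_mul]

/-! ### basic expressions -/

/-- `S² + C²` -/
def xo : Ex := Ex.add (Ex.pow (Ex.va 1) 2) (Ex.pow (Ex.va 2) 2)
/-- `S C` -/
def xSC : Ex := Ex.mul (Ex.va 1) (Ex.va 2)
/-- `sin η + i cos η` -/
def cE : CX := ⟨Ex.sc 2 xSC, Ex.add (Ex.pow (Ex.va 2) 2) (Ex.sc (-1) (Ex.pow (Ex.va 1) 2))⟩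
/-- `p` -/
def cP : CX := ⟨Ex.va 3, Ex.va 4⟩
/-- `x` -/
def cx : CX := ⟨Ex.va 5, Ex.va 6⟩
/-- the rotating frame of `w` -/
def cW : CX := CX.add cE (CX.sc 4 (CX.add (CX.rm (Ex.sc 2 xSC) cx) cP))

section
variable (l η : ℝ) (q x : ℂ)

theorem v_xo : xo.re (pt7 l η q x) = 1 := by
  show Real.sin (η / 2) ^ 2 + Real.cos (η / 2) ^ 2 = 1
  exact Real.sin_sq_add_cos_sq _

theorem v_xSC : xSC.re (pt7 l η q x) = Real.sin (η / 2) * Real.cos (η / 2) := rfl

theorem v_cE : CX.v (pt7 l η q x) cE = ee η := by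
  unfold ee
  apply Complex.ext
  · show ((2 : ℤ) : ℝ) * (Real.sin (η / 2) * Real.cos (η / 2)) = _
    simp only [add_re, mul_re, ofReal_re, ofReal_im, I_re, I_im, mul_zero,
      mul_one, sub_zero, add_zero, zero_mul]
    rw [sin_half η]
    push_cast
    ring
  · show Real.cos (η / 2) ^ 2 + ((-1 : ℤ) : ℝ) * Real.sin (η / 2) ^ 2 = _
    simp only [add_im, mul_im, ofReal_re, ofReal_im, I_re, I_im, mul_zero,
      mul_one, add_zero, zero_add]
    rw [cos_half η]
    push_cast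
    ring

theorem v_cP : CX.v (pt7 l η q x) cP = pp q η := rfl

theorem v_cx : CX.v (pt7 l η q x) cx = x := rfl

theorem v_cW : CX.v (pt7 l η q x) cW = wt q x η := by
  unfold cW wt
  rw [CX.v_add, CX.v_sc, CX.v_add, CX.v_rm, v_cE, v_cP, v_cx]
  have e : (Ex.sc 2 xSC).re (pt7 l η q x) = Real.sin η := by
    show ((2 : ℤ) : ℝ) * (Real.sin (η / 2) * Real.cos (η / 2)) = _
    rw [sin_half η]
    push_cast
    ring
  rw [e]
  push_cast
  ring

end

end Pool.Agent.Helper42.CKC
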