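import Pool.Agent.Helper42.CKC.Base
set_option autoImplicit false
open Complex MeasureTheory Metric Set
open scoped Real ComplexConjugate

/-!
# Project CKC: data of a certificate on an arc of directions, full strip

A vertex `(τ, σ) = (tn/td, sn/td)`; the target of a vertex and a side is `2 td M D^K F`.
-/

namespace Pool.Agent.Helper42.CKC

open Pool.Sos71 Pool.EK71 Pool.Agent.Helper52.EK Pool.Agent.Helper2.EK
open Pool.Agent.Helper69.EK3 (AP aev af apE apE_re ader ash)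
open Pool.Agent.Helper71.EKC (sb2 pw2)
open Pool.Agent.Helper99.CKC
open Pool.Agent.Helper11.CKC (CL MSc)

/-- `(e, a, b, g, P)`: the multiplier `l^e p₁^a p₂^b g(S, C) P(x)` of the relation -/
structure Rm where
  e : ℕ
  a : ℕ
  b : ℕ
  g : AP
  P : BP

/-- the field of one side: `(aR + i aI) w + (bR + i bI)`, times `l` -/
structure Fl where
  aR : ℤ
  aI : ℤ
  bR : ℤ
  bI : ℤ

/-- a vertex -/
structure Vx where
  tn : ℤ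
  sn : ℤ
  td : ℤ
  ka : ℤ
  lam : ℤ
  gm : ℤ
  cR : ℤ
  cI : ℤ
  fi : Fl
  fo : Fl
  HM : List HmC
  RI : List Rm
  RO : List Rm

structure DatC where
  d : DC
  K : ℕ
  h : ℕ
  kL : ℕ
  M : ℤ
  Fd : ℤ
  Mt : ℤ
  rd : ℤ
  p0 : ℤ
  p1 : ℤ
  p2 : ℤ
  q0 : ℤ
  q1 : ℤ
  q2 : ℤ
  G0 : List GrC
  G1 : List GrC
  MI0 : CL
  MI1 : CL
  MO0 : CL
  MO1 : CL

/-! ### expressions -/

/-- powers of `D` -/
def Dk (d : DC) (n : ℕ) : BP := pw2 (DcL d) n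

/-- integer constant -/
def cZ (a b : ℤ) : CX := ⟨Ex.lit a, Ex.lit b⟩

/-- the harmonic term times `D^K` -/
def EHm (d : DC) (K : ℕ) (t : HmC) : Ex :=
  Ex.mul (apE (ader t.P)) (Ex.mul (CX.mul (cZ t.cR t.cI) (CX.pw cx t.n)).r (Ex.bp (Dk d K)))

/-- `(aC1 j g)/(SC)^j`, times `S^0` -/
def adC (j : ℕ) : AP → AP
  | [] => []
  | (c, i, k) :: g => (Int.mul c (Int.ofNat (j + 1 + i)), i, k + 2) ::
      (Int.mul (-c) (Int.ofNat (j + 1 + k)), i + 2, k) :: adC j g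

/-- `(M₁ + i M₂)/D^k` times `D^K` -/
def hM (d : DC) (K k : ℕ) (t : AP × BP × BP) : CX :=
  ⟨Ex.bp (mu2 t.2.1 (Dk d (K - k))), Ex.bp (mu2 t.2.2 (Dk d (K - k)))⟩

/-- `H₁ + i H₂` times `D^K` -/
def hN (d : DC) (K k : ℕ) (t : AP × BP × BP) : CX :=
  ⟨Ex.bp (mu2 (sb2 (qcX d k t.2.1) (qcY d k t.2.2)) (Dk d (K - k - 1))),
    Ex.bp (mu2 (ad2 (qcX d k t.2.2) (qcY d k t.2.1)) (Dk d (K - k - 1)))⟩

/-- `z0 + (z1 + i z2) x` -/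
def cXt (z0 z1 z2 : ℤ) : CX := CX.add (cZ z0 0) (CX.sc2 z1 z2 cx)

/-- the sum of the potentials of a group for `(c₀, c₁) = (z0, z1 + i z2)`, times `D^K` -/
def EGc (z0 z1 z2 : ℤ) (d : DC) (K : ℕ) (G : GrC) : Ex :=
  (CX.mul (CX.pw cP G.j)
    (CX.add (CX.mI (CX.sc2 z1 z2 (CX.sum (fun t => CX.rm (apE (adC G.j t.1)) (hM d K G.k t)) G.l)))
      (CX.mul (CX.cj (CX.mul cP (cXt z0 z1 z2)))
        (CX.sum (fun t => CX.rm (Ex.sc 2 (apE t.1)) (hN d K G.k t)) G.l)))).r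

/-- sums of expressions -/
def sumX {ι : Type} (f : ι → Ex) (a : Ex) : List ι → Ex
  | [] => a
  | t :: L => Ex.add (f t) (sumX f a L)

/-- `(conj w)^j e₀`, `j ≤ 2` -/
def cMw (j : ℕ) : CX := CX.mul (CX.pw cE (2 - j)) (CX.pw (CX.cj cW) j)

/-- `Re [(re + i im) l^n (conj w)^j e₀ ((z1 + i z2) x² + 2 z0 x)]`, times `D^K` -/
def EMc (z0 z1 z2 : ℤ) (d : DC) (K h : ℕ) (t : ℕ × ℕ × ℤ × ℤ) : Ex :=
  Ex.mul (Ex.mul (Ex.pow (Ex.va 0) t.1)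
    (CX.mul (CX.sc2 t.2.2.1 t.2.2.2 (cMw t.2.1))
      (CX.mul cx (CX.add (cZ (Int.mul 2 z0) 0) (CX.sc2 z1 z2 cx)))).r)
    (Ex.mul (Ex.pow xo (h - 2)) (Ex.bp (Dk d K)))

/-- the field minus `e₀` in the rotating frame, times `Fd` -/
def cGv (Fd s gm cR cI : ℤ) (f : Fl) : CX :=
  CX.add (CX.add (CX.add (CX.sc gm cW) (CX.sc2 cR cI (CX.cj cE))) (CX.sc (-Fd) cE))
    (CX.rm (Ex.sc s (Ex.va 0)) (CX.add (CX.sc2 f.aR f.aI cW) (CX.sc2 f.bR f.bI (CX.cj cE))))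

/-- `rd (|w|² - 1) + s l ρ` -/
def eCn (rd s r0 r1 r2 : ℤ) : Ex :=
  Ex.add (Ex.sc rd (Ex.add (CX.nsq cW) (Ex.sc (-1) (Ex.pow xo 2))))
    (Ex.mul (Ex.sc s (Ex.va 0)) (Ex.add (Ex.sc r0 (Ex.pow xo 2))
      (Ex.add (Ex.sc r1 (CX.nsq (CX.add cW (CX.cj cE)))) (Ex.sc r2 (CX.nsq cW)))))

/-- one multiplier of the relation -/
def eRm (d : DC) (m : ℕ) (t : Rm) : Ex :=
  Ex.mul (Ex.mul (Ex.pow (Ex.va 0) t.e) (Ex.mul (Ex.pow (Ex.va 3) t.a) (Ex.pow (Ex.va 4) t.b)))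
    (Ex.mul (apE t.g) (Ex.bp (mu2 t.P (Dk d m))))

namespace DatC
variable (D : DatC)

/-- `(lam (|x|² + x₁) - ka x₁)`, times `2 td D^K` -/
def eLin (v : Vx) : Ex :=
  Ex.mul (Ex.pow xo D.h) (Ex.bp (mu2 [[0, 0, Int.mul (Int.mul 2 v.td) v.lam],
    [Int.mul (Int.mul 2 v.td) (Int.add v.lam (Int.neg v.ka))],
    [Int.mul (Int.mul 2 v.td) v.lam]] (Dk D.d D.K)))

/-- the part of the target without the relation -/
def eMain (v : Vx) (s : ℤ) (f : Fl) (L0 L1 : CL) : Ex :=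
  Ex.add (Ex.mul (Ex.sc (Int.mul (-2) (Int.mul v.td D.Mt))
      (CX.nsq (cGv D.Fd s v.gm v.cR v.cI f))) (Ex.mul (Ex.pow xo (D.h - 2)) (Ex.bp (Dk D.d D.K))))
    (Ex.add (Ex.sc (Int.mul 2 v.td) (sumX (EHm D.d D.K) (Ex.mul (Ex.pow xo D.h) (Ex.lit 0)) v.HM))
      (Ex.add (Ex.sc 2 (sumX (EGc v.td v.td v.tn D.d D.K)
          (sumX (EGc v.tn v.tn v.sn D.d D.K) (Ex.mul (Ex.pow xo D.h) (Ex.lit 0)) D.G1) D.G0))
        (sumX (EMc v.td v.td v.tn D.d D.K D.h)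
          (sumX (EMc v.tn v.tn v.sn D.d D.K D.h) (D.eLin v) L1) L0)))

/-- the target -/
def target (v : Vx) (s r0 r1 r2 : ℤ) (f : Fl) (L0 L1 : CL) (R : List Rm) : Ex :=
  Ex.add (D.eMain v s f L0 L1)
    (Ex.mul (eCn D.rd s r0 r1 r2) (sumX (eRm D.d (D.K - D.kL))
      (Ex.mul (Ex.pow xo (D.h - 2)) (Ex.lit 0)) R))

def tIn (v : Vx) : Ex := D.target v 1 D.p0 D.p1 D.p2 v.fi D.MI0 D.MI1 v.RI
def tOut (v : Vx) : Ex := D.target v (-1) D.q0 D.q1 D.q2 v.fo D.MO0 D.MO1 v.RO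

end DatC

/-! ### the discs -/

/-- `td` times the polynomial of the disc `σ = ±1` -/
def eDs (s tn sn td : ℤ) : Ex :=
  let Y := CX.add (CX.sc 2 cP) (CX.rm (Ex.sc (Int.mul 2 s) (Ex.sc 2 xSC)) cx)
  let A := Ex.sc 2 xSC
  let B := cE.i
  let U : CX := ⟨Ex.add (Ex.sc (Int.mul (Int.mul 2 s) td) A) (Ex.sc (Int.mul (-2) tn) B),
    Ex.add (Ex.sc (Int.mul (Int.mul 2 s) tn) A) (Ex.sc (Int.add td (Int.neg sn)) B)⟩
  Ex.add (Ex.sc (Int.mul 4 (Int.add td sn)) (Ex.pow xo 2))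
    (Ex.sc (-1) (Ex.add (Ex.add (Ex.sc (Int.add td sn) (CX.nsq Y)) (Ex.sc 2 (CX.mul Y U).r))
      (Ex.add (Ex.sc (Int.mul 4 td) (Ex.pow A 2)) (Ex.add (Ex.sc (Int.add td sn) (Ex.pow B 2))
        (Ex.sc (Int.mul (Int.mul (-4) s) tn) (Ex.mul A B))))))

end Pool.Agent.Helper42.CKC
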