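import Pool.Agent.Helper42.CKC.Point
set_option autoImplicit false
open Complex MeasureTheory Metric Set
open scoped Real ComplexConjugate

/-!
# Project CKC: the inequality `PtX` in every direction of the triangle of the vertices
-/

namespace Pool.Agent.Helper42.CKC

open Pool.Sos71 Pool.EK71 Pool.Agent.Helper52.EK Pool.Agent.Helper2.EK
open Pool.Agent.Helper69.EK3 (AP aev af rF rF_eq)
open Pool.Agent.Helper71.CK (LIn LOut)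
open Pool.Agent.Helper20.EK7 (InL OutL OutD)
open Pool.Agent.Helper99.CKC
open Pool.Agent.Helper11.CKC (CL MSc Mqc MqA)

namespace DatC

/-- conditions on the data -/
structure Ok (D : DatC) (v0 v1 v2 : Vx) (Ln Ld Ln' Ld' : ℤ) : Prop where
  wf : D.wf = true
  g0 : okGs D.G0 = true
  g1 : okGs D.G1 = true
  m0 : v0.HM.all HmC.ok = true
  m1 : v1.HM.all HmC.ok = true
  m2 : v2.HM.all HmC.ok = true
  M0 : 0 < D.M
  F0 : 0 < D.Fd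
  MF : D.M = D.Fd ^ 2 * D.Mt
  rd0 : 0 < D.rd
  t0 : 0 < v0.td
  t1 : 0 < v1.td
  t2 : 0 < v2.td
  Ld0 : 0 < Ld
  Ld0' : 0 < Ld'
  inL : InL (D.p0 / D.rd) (D.p1 / D.rd) (D.p2 / D.rd)
  outD : OutD (D.q0 / D.rd) (D.q1 / D.rd) (D.q2 / D.rd)
  lIn : LIn (D.p0 / D.rd) (D.p1 / D.rd) (D.p2 / D.rd) (Ln / Ld)
  lOut : LOut (D.q0 / D.rd) (D.q1 / D.rd) (D.q2 / D.rd) (Ln' / Ld')

variable {D : DatC} {v0 v1 v2 : Vx} {Ln Ld Ln' Ld' : ℤ}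

theorem Ok.null (o : D.Ok v0 v1 v2 Ln Ld Ln' Ld') (τ s0 s1 s2 : ℝ) :
    NullX τ (D.NN v0 v1 v2 τ s0 s1 s2) :=
  (((nullX_Gs D.d τ D.G0 o.g0).add ((nullX_Gs D.d τ D.G1 o.g1).const_mul τ)).add
    ((((nullX_Hms τ v0.HM o.m0).const_mul s0).add ((nullX_Hms τ v1.HM o.m1).const_mul s1)).add
      ((nullX_Hms τ v2.HM o.m2).const_mul s2))).const_mul (1 / D.M)

/-- **the inequality in every direction** -/
theorem Ok.point (o : D.Ok v0 v1 v2 Ln Ld Ln' Ld')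
    (hI : SideP D.K Ln Ld v0 v1 v2 (D.tIn v0) (D.tIn v1) (D.tIn v2))
    (hO : SideP D.K Ln' Ld' v0 v1 v2 (D.tOut v0) (D.tOut v1) (D.tOut v2)) :
    ∃ B : ℝ, 0 ≤ B ∧ ∀ τ s0 s1 s2 : ℝ, 0 ≤ s0 → 0 ≤ s1 → 0 ≤ s2 → s0 + s1 + s2 = 1 →
      s0 * (v0.tn / v0.td) + s1 * (v1.tn / v1.td) + s2 * (v2.tn / v2.td) = τ →
      s0 * (v0.sn / v0.td) + s1 * (v1.sn / v1.td) + s2 * (v2.sn / v2.td) = τ ^ 2 →
      NullX τ (D.NN v0 v1 v2 τ s0 s1 s2) ∧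
      PtX τ (s0 * (v0.ka / D.M) + s1 * (v1.ka / D.M) + s2 * (v2.ka / D.M))
        (s0 * (v0.lam / D.M) + s1 * (v1.lam / D.M) + s2 * (v2.lam / D.M)) 0 0 B
        (cf3 s0 s1 s2 D.Fd v0.gm 0 v1.gm 0 v2.gm 0)
        (cf3 s0 s1 s2 D.Fd v0.cR v0.cI v1.cR v1.cI v2.cR v2.cI)
        (cf3 s0 s1 s2 D.Fd v0.fi.aR v0.fi.aI v1.fi.aR v1.fi.aI v2.fi.aR v2.fi.aI)
        (cf3 s0 s1 s2 D.Fd v0.fi.bR v0.fi.bI v1.fi.bR v1.fi.bI v2.fi.bR v2.fi.bI)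
        (-cf3 s0 s1 s2 D.Fd v0.fo.aR v0.fo.aI v1.fo.aR v1.fo.aI v2.fo.aR v2.fo.aI)
        (-cf3 s0 s1 s2 D.Fd v0.fo.bR v0.fo.bI v1.fo.bR v1.fo.bI v2.fo.bR v2.fo.bI)
        (D.p0 / D.rd) (D.p1 / D.rd) (D.p2 / D.rd) (D.q0 / D.rd) (D.q1 / D.rd) (D.q2 / D.rd)
        (MqA D.M D.MI0 D.MI1 D.MO0 D.MO1 (D.p0 / D.rd) (D.p1 / D.rd) (D.p2 / D.rd)
          (D.q0 / D.rd) (D.q1 / D.rd) (D.q2 / D.rd) τ)
        (D.NN v0 v1 v2 τ s0 s1 s2) := by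
  obtain ⟨B1, hB1, Q1, Q2, hQ⟩ := hI
  obtain ⟨B2, hB2, Q1', Q2', hQ'⟩ := hO
  have w := wf_iff D o.wf
  have hM : (0:ℝ) < D.M := by exact_mod_cast o.M0
  have hN : (0:ℝ) < D.d.N := by exact_mod_cast D.d.hN
  have hR : (0:ℝ) < D.rd := by exact_mod_cast o.rd0
  have hL : (0:ℝ) < Ld := by exact_mod_cast o.Ld0
  have hL' : (0:ℝ) < Ld' := by exact_mod_cast o.Ld0'
  have hNK : 0 ≤ (D.d.N : ℝ) ^ D.K / (2 * D.M) := by positivity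
  have hB : 0 ≤ (B1 + B2) * D.d.N ^ D.K / (2 * D.M) := by positivity
  have mon1 : ∀ t : ℝ, 0 ≤ t → B1 * D.d.N ^ D.K / (2 * D.M) * t ≤
      (B1 + B2) * D.d.N ^ D.K / (2 * D.M) * t := by
    intro t ht
    refine mul_le_mul_of_nonneg_right ?_ ht
    rw [mul_div_assoc, mul_div_assoc]
    exact mul_le_mul_of_nonneg_right (by linarith) hNK
  have mon2 : ∀ t : ℝ, 0 ≤ t → B2 * D.d.N ^ D.K / (2 * D.M) * t ≤
      (B1 + B2) * D.d.N ^ D.K / (2 * D.M) * t := by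
    intro t ht
    refine mul_le_mul_of_nonneg_right ?_ ht
    rw [mul_div_assoc, mul_div_assoc]
    exact mul_le_mul_of_nonneg_right (by linarith) hNK
  refine ⟨(B1 + B2) * D.d.N ^ D.K / (2 * D.M), hB,
    fun τ s0 s1 s2 p0 p1 p2 hs hτ hσ => ⟨o.null τ s0 s1 s2, ?_, ?_⟩⟩
  · intro x q η hη hx _ w' hw' h1 l hl
    obtain ⟨c1, c2, c3⟩ := o.lIn.l_bd o.inL h1
    rw [← hl] at c2 c3
    have l1 : (Ld : ℝ) * l ≤ Ln := by
      rw [le_div_iff₀ hL] at c3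
      linarith
    have hr : D.rd * (‖wx x q (Real.sin η) (Real.cos η)‖ ^ 2 - 1) +
        ((1 : ℤ) : ℝ) * l * rF D.p0 D.p1 D.p2 (wx x q (Real.sin η) (Real.cos η)) = 0 := by
      rw [← hw']
      have e1 : l * rF (D.p0 / D.rd) (D.p1 / D.rd) (D.p2 / D.rd) w' = 1 - ‖w'‖ ^ 2 := by
        rw [hl, div_mul_cancel₀ _ c1.ne']
      rw [rF_div] at e1
      have e2 : l * rF D.p0 D.p1 D.p2 w' = D.rd * (1 - ‖w'‖ ^ 2) := by
        rw [← e1]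
        field_simp
      push_cast
      rw [one_mul, e2]
      ring
    obtain ⟨k1, k2, a1, a2, a3, a4, a5⟩ := side_pt w o.M0 o.F0 o.MF o.t0 o.t1 o.t2 (s := 1)
      (f0 := v0.fi) (f1 := v1.fi) (f2 := v2.fi) w.i0 w.i1 (R0 := v0.RI) (R1 := v1.RI)
      (R2 := v2.RI) hB1 hQ p0 p1 p2 hs hτ hσ hη hx c2 l1 hr
    have ht : 0 ≤ 1 + ‖x‖ ^ 2 := by positivity
    refine ⟨0, k1, k2, le_rfl, mul_nonneg hB ht, a1, a2.trans (mon1 _ ht), a3,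
      a4.trans (mon1 _ ht), ?_⟩
    rw [← hw'] at a5
    unfold MqA Mqc
    rw [if_pos h1, if_pos h1, ← hl]
    simp only [Int.cast_one, one_mul] at a5
    simp only [ofReal_zero, zero_mul, sub_zero, add_zero]
    exact a5
  · intro x q η hη hx _ w' hw' h1 l hl
    have hOL : OutL ((D.q1 : ℝ) / D.rd + D.q2 / D.rd) (D.q0 / D.rd) (D.q1 / D.rd)
      (D.q2 / D.rd) := ⟨rfl, o.outD.pos, o.outD.pos'⟩
    obtain ⟨c1, c2, c3⟩ := o.lOut.l_bd hOL h1.le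
    rw [← hl] at c2 c3
    have l1 : (Ld' : ℝ) * l ≤ Ln' := by
      rw [le_div_iff₀ hL'] at c3
      linarith
    have hr : D.rd * (‖wx x q (Real.sin η) (Real.cos η)‖ ^ 2 - 1) +
        ((-1 : ℤ) : ℝ) * l * rF D.q0 D.q1 D.q2 (wx x q (Real.sin η) (Real.cos η)) = 0 := by
      rw [← hw']
      have e1 : l * rF (D.q0 / D.rd) (D.q1 / D.rd) (D.q2 / D.rd) w' = ‖w'‖ ^ 2 - 1 := by
        rw [hl, div_mul_cancel₀ _ c1.ne']
      rw [rF_div] at e1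
      have e2 : l * rF D.q0 D.q1 D.q2 w' = D.rd * (‖w'‖ ^ 2 - 1) := by
        rw [← e1]
        field_simp
      push_cast
      rw [neg_one_mul, neg_mul, e2]
      ring
    obtain ⟨k1, k2, a1, a2, a3, a4, a5⟩ := side_pt w o.M0 o.F0 o.MF o.t0 o.t1 o.t2 (s := -1)
      (f0 := v0.fo) (f1 := v1.fo) (f2 := v2.fo) w.o0 w.o1 (R0 := v0.RO) (R1 := v1.RO)
      (R2 := v2.RO) hB2 hQ' p0 p1 p2 hs hτ hσ hη hx c2 l1 hr
    have ht : 0 ≤ 1 + ‖x‖ ^ 2 := by positivity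
    refine ⟨0, k1, k2, le_rfl, mul_nonneg hB ht, a1, a2.trans (mon2 _ ht), a3,
      a4.trans (mon2 _ ht), ?_⟩
    rw [← hw'] at a5
    unfold MqA Mqc
    rw [if_neg (not_le.2 h1), if_neg (not_le.2 h1), ← hl]
    simp only [Int.cast_neg, Int.cast_one, neg_one_mul] at a5
    simp only [ofReal_zero, zero_mul, sub_zero, add_zero]
    exact a5

end DatC

end Pool.Agent.Helper42.CKC
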