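import Pool.Agent.Helper42.CKC.Val
set_option autoImplicit false
open Complex MeasureTheory Metric Set
open scoped Real ComplexConjugate

/-!
# Project CKC: the terms of the target are linear in `(c₀, c₁)`
-/

namespace Pool.Agent.Helper42.CKC

open Pool.Sos71 Pool.EK71 Pool.Agent.Helper52.EK Pool.Agent.Helper2.EK
open Pool.Agent.Helper69.EK3 (AP aev af)
open Pool.Agent.Helper99.CKC
open Pool.Agent.Helper11.CKC (CL MSc)

/-- three numbers with weights -/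
structure W3 where
  a : ℝ
  b : ℝ
  c : ℝ

noncomputable def W3.r (s : W3) (x y z : ℝ) : ℝ := s.a * x + s.b * y + s.c * z
noncomputable def W3.z (s : W3) (x y z : ℂ) : ℂ := s.a * x + s.b * y + s.c * z

variable (s : W3)

theorem NPv_lin (c0 d0 e0 : ℝ) (c1 d1 e1 : ℂ) (j : ℕ) (a a₁ : ℝ) (H H1 H2 x q : ℂ) :
    NPv (s.r c0 d0 e0) (s.z c1 d1 e1) j a a₁ H H1 H2 x q =
      s.r (NPv c0 c1 j a a₁ H H1 H2 x q) (NPv d0 d1 j a a₁ H H1 H2 x q)
        (NPv e0 e1 j a a₁ H H1 H2 x q) := by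
  unfold NPv W3.r W3.z
  rw [← re_ofReal_mul, ← re_ofReal_mul, ← re_ofReal_mul, ← add_re, ← add_re]
  congr 1
  simp only [map_add, map_mul, conj_ofReal, ofReal_add, ofReal_mul]
  ring

theorem NPotv_lin (d : DC) (c0 d0 e0 : ℝ) (c1 d1 e1 : ℂ) (j k : ℕ) (t : AP × BP × BP) (x q : ℂ)
    (η : ℝ) : NPotv d (s.r c0 d0 e0) (s.z c1 d1 e1) j k t x q η =
      s.r (NPotv d c0 c1 j k t x q η) (NPotv d d0 d1 j k t x q η) (NPotv d e0 e1 j k t x q η) :=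
  NPv_lin s _ _ _ _ _ _ _ _ _ _ _ _ _ _

theorem sum_r {ι : Type} (L : List ι) (f g h : ι → ℝ) :
    (L.map fun t => s.r (f t) (g t) (h t)).sum = s.r (L.map f).sum (L.map g).sum (L.map h).sum := by
  unfold W3.r
  induction L with
  | nil => simp
  | cons t L ih =>
    simp only [List.map_cons, List.sum_cons, ih]
    ring

theorem NGsv_lin (d : DC) (c0 d0 e0 : ℝ) (c1 d1 e1 : ℂ) (L : List GrC) (x q : ℂ) (η : ℝ) :
    NGsv d (s.r c0 d0 e0) (s.z c1 d1 e1) L x q η =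
      s.r (NGsv d c0 c1 L x q η) (NGsv d d0 d1 L x q η) (NGsv d e0 e1 L x q η) := by
  unfold NGsv NGv
  simp only [NPotv_lin, sum_r]

theorem MTv_lin (c0 d0 e0 : ℝ) (c1 d1 e1 : ℂ) (L : CL) (l : ℝ) (w e x : ℂ) :
    MTv (s.r c0 d0 e0) (s.z c1 d1 e1) L l w e x =
      s.r (MTv c0 c1 L l w e x) (MTv d0 d1 L l w e x) (MTv e0 e1 L l w e x) := by
  unfold MTv W3.r W3.z
  rw [← re_ofReal_mul, ← re_ofReal_mul, ← re_ofReal_mul, ← add_re, ← add_re]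
  congr 1
  simp only [ofReal_add, ofReal_mul]
  ring

theorem dpv_lin (T1 T2 T3 t1 t2 t3 r1 r2 r3 σ : ℝ) (x q : ℂ) (u v : ℝ) :
    dpv (s.r T1 T2 T3) (s.r t1 t2 t3) (s.r r1 r2 r3) σ x q u v =
      s.r (dpv T1 t1 r1 σ x q u v) (dpv T2 t2 r2 σ x q u v) (dpv T3 t3 r3 σ x q u v) := by
  unfold dpv W3.r
  generalize (u : ℂ) * q + 2 * σ * u * x = Z
  have e : (Z * (2 * (σ : ℂ) * u * (((s.a * T1 + s.b * T2 + s.c * T3 : ℝ) : ℂ) +
      I * ((s.a * t1 + s.b * t2 + s.c * t3 : ℝ) : ℂ)) + I * v *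
      (((s.a * T1 + s.b * T2 + s.c * T3 : ℝ) : ℂ) + 2 * I *
        ((s.a * t1 + s.b * t2 + s.c * t3 : ℝ) : ℂ) -
        ((s.a * r1 + s.b * r2 + s.c * r3 : ℝ) : ℂ)))).re =
      s.a * (Z * (2 * (σ : ℂ) * u * (T1 + I * t1) + I * v * (T1 + 2 * I * t1 - r1))).re +
      s.b * (Z * (2 * (σ : ℂ) * u * (T2 + I * t2) + I * v * (T2 + 2 * I * t2 - r2))).re +
      s.c * (Z * (2 * (σ : ℂ) * u * (T3 + I * t3) + I * v * (T3 + 2 * I * t3 - r3))).re := by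
    rw [← re_ofReal_mul, ← re_ofReal_mul, ← re_ofReal_mul, ← add_re, ← add_re]
    congr 1
    push_cast
    ring
  rw [e]
  ring

/-- Jensen for three points -/
theorem sq_jensen (ha : 0 ≤ s.a) (hb : 0 ≤ s.b) (hc : 0 ≤ s.c) (h : s.a + s.b + s.c = 1)
    (x y z e : ℂ) : ‖s.z x y z - e‖ ^ 2 ≤ s.r (‖x - e‖ ^ 2) (‖y - e‖ ^ 2) (‖z - e‖ ^ 2) := by
  have e1 : s.z x y z - e = s.z (x - e) (y - e) (z - e) := by
    unfold W3.z
    have h' : (s.a : ℂ) + s.b + s.c = 1 := by exact_mod_cast h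
    linear_combination (e : ℂ) * h'
  rw [e1]
  generalize x - e = X
  generalize y - e = Y
  generalize z - e = Z
  unfold W3.z W3.r
  have h1 : ‖(s.a : ℂ) * X + s.b * Y + s.c * Z‖ ≤ s.a * ‖X‖ + s.b * ‖Y‖ + s.c * ‖Z‖ := by
    refine (norm_add_le _ _).trans (add_le_add ((norm_add_le _ _).trans (add_le_add ?_ ?_)) ?_)
    · rw [norm_mul, norm_real, Real.norm_of_nonneg ha]
    · rw [norm_mul, norm_real, Real.norm_of_nonneg hb]
    · rw [norm_mul, norm_real, Real.norm_of_nonneg hc]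
  have h2 := pow_le_pow_left₀ (norm_nonneg _) h1 2
  refine h2.trans ?_
  generalize ‖X‖ = p
  generalize ‖Y‖ = q
  generalize ‖Z‖ = r
  have hc' : s.c = 1 - s.a - s.b := by linarith
  have h3 : s.a * p ^ 2 + s.b * q ^ 2 + s.c * r ^ 2 - (s.a * p + s.b * q + s.c * r) ^ 2 =
      s.a * s.b * (p - q) ^ 2 + s.a * s.c * (p - r) ^ 2 + s.b * s.c * (q - r) ^ 2 := by
    rw [hc']
    ring
  have h4 := mul_nonneg (mul_nonneg ha hb) (sq_nonneg (p - q))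
  have h5 := mul_nonneg (mul_nonneg ha hc) (sq_nonneg (p - r))
  have h6 := mul_nonneg (mul_nonneg hb hc) (sq_nonneg (q - r))
  linarith

/-! ### the parameter `τ` -/

theorem NPotv_tau (d : DC) (τ : ℝ) (j k : ℕ) (t : AP × BP × BP) (x q : ℂ) (η : ℝ) :
    NPotv d 1 (1 + τ * I) j k t x q η = NPot d τ j k t x q η := by
  unfold NPotv NPot NPv NP
  rw [mul_comm (τ : ℂ) I]
  push_cast
  rfl

theorem NGsv_tau (d : DC) (τ : ℝ) (L : List GrC) (x q : ℂ) (η : ℝ) :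
    NGsv d 1 (1 + τ * I) L x q η = NGs d τ L x q η := by
  unfold NGsv NGv NGs NGr
  simp only [NPotv_tau]

theorem NGsv_tau' (d : DC) (τ : ℝ) (L : List GrC) (x q : ℂ) (η : ℝ) :
    NGsv d τ (τ + (τ ^ 2 : ℝ) * I) L x q η = τ * NGs d τ L x q η := by
  have h := NGsv_lin ⟨τ, 0, 0⟩ d 1 0 0 (1 + τ * I) 0 0 L x q η
  unfold W3.r W3.z at h
  simp only [mul_one, zero_mul, add_zero, mul_zero, ofReal_zero] at h
  rw [NGsv_tau] at h
  rw [← h]
  congr 1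
  push_cast
  ring

theorem MTv_tau (τ : ℝ) (L : CL) (l : ℝ) (w e x : ℂ) : MTv 1 (1 + τ * I) L l w e x =
    2 * (MSc L l w * e * ((1 + I * τ) / 2 * x ^ 2 + x)).re := by
  unfold MTv
  have e2 : (2:ℝ) * (MSc L l w * e * ((1 + I * τ) / 2 * x ^ 2 + x)).re =
      (((2:ℝ) : ℂ) * (MSc L l w * e * ((1 + I * τ) / 2 * x ^ 2 + x))).re := by
    rw [re_ofReal_mul]
  rw [e2]
  congr 1
  push_cast
  ring

theorem MTv_tau' (τ : ℝ) (L : CL) (l : ℝ) (w e x : ℂ) :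
    MTv τ (τ + (τ ^ 2 : ℝ) * I) L l w e x =
    2 * (τ * MSc L l w * e * ((1 + I * τ) / 2 * x ^ 2 + x)).re := by
  unfold MTv
  have e2 : (2:ℝ) * (τ * MSc L l w * e * ((1 + I * τ) / 2 * x ^ 2 + x)).re =
      (((2:ℝ) : ℂ) * (τ * MSc L l w * e * ((1 + I * τ) / 2 * x ^ 2 + x))).re := by
    rw [re_ofReal_mul]
  rw [e2]
  congr 1
  push_cast
  ring

end Pool.Agent.Helper42.CKC
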