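import Pool.Agent.Helper42.CKC.BddG
import Pool.Agent.Helper42.CKC.Dat
set_option autoImplicit false

/-!
# Project CKC: from certificates of the three vertices with common disc blocks to the inequality
-/

namespace Pool.Agent.Helper42.CKC

open Pool.Sos71

/-- the domain -/
structure DomC (Ln Ld : ℤ) (y : Pnt) : Prop where
  b0 : 0 ≤ y.b
  c0 : 0 ≤ y.c
  u1 : y.b ^ 2 + y.c ^ 2 = 1
  a0 : 0 ≤ y.a
  a1 : (Ld : ℝ) * y.a ≤ Ln
  r : y.b * y.c * Bdd.rho y ≤ 6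

/-- `l (Ln - Ld l)` -/
def mLc (Ln Ld : ℤ) : Ex := .mul (.va 0) (.add (.lit Ln) (.sc (-Ld) (.va 0)))

/-- another multiplier -/
def wm (e : Ex) (b : Blk) : Blk := ⟨e, b.N, b.nf, b.its, b.B, b.off, b.L, b.BE, b.offE, b.E, b.dl⟩

theorem wm_q (e : Ex) (b : Blk) (y : Pnt) : (wm e b).q y = b.q y := rfl

/-- admissible multipliers -/
def GoodC (Ln Ld : ℤ) (b : Blk) : Prop :=
  b.mult = .lit 1 ∨ b.mult = xSC ∨ b.mult = mLc Ln Ld ∨ b.mult = .mul xSC (mLc Ln Ld)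

def Goods (Ln Ld : ℤ) : List Blk → Prop
  | [] => True
  | b :: bs => GoodC Ln Ld b ∧ Goods Ln Ld bs

variable {Ln Ld : ℤ}

theorem DomC.dom0 {y : Pnt} (h : DomC Ln Ld y) (hd : 0 < Ld) : Bdd.Dom0 ((Ln : ℝ) / Ld) y := by
  have hd' : (0 : ℝ) < Ld := by exact_mod_cast hd
  refine ⟨h.a0, ?_, h.b0, ?_, h.c0, ?_, h.r⟩
  · rw [le_div_iff₀ hd']
    linarith [h.a1]
  · nlinarith [h.u1, sq_nonneg y.c, h.b0]
  · nlinarith [h.u1, sq_nonneg y.b, h.c0]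

theorem mLc_nonneg {y : Pnt} (h : DomC Ln Ld y) : 0 ≤ (mLc Ln Ld).re y := by
  have e : (mLc Ln Ld).re y = y.a * (Ln - Ld * y.a) := by
    show y.a * ((Ln : ℝ) + ((-Ld : ℤ) : ℝ) * y.a) = _
    push_cast
    ring
  rw [e]
  exact mul_nonneg h.a0 (by linarith [h.a1])

theorem xSC_nonneg {y : Pnt} (h : DomC Ln Ld y) : 0 ≤ xSC.re y := mul_nonneg h.b0 h.c0

theorem GoodC.nonneg {b : Blk} (g : GoodC Ln Ld b) {y : Pnt} (h : DomC Ln Ld y) :
    0 ≤ b.mult.re y := by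
  rcases g with g | g | g | g
  · rw [g]
    show (0:ℝ) ≤ ((1 : ℤ) : ℝ)
    norm_num
  · rw [g]
    exact xSC_nonneg h
  · rw [g]
    exact mLc_nonneg h
  · rw [g]
    exact mul_nonneg (xSC_nonneg h) (mLc_nonneg h)

theorem brs_append (y : Pnt) (as bs : List Blk) : brs y (as ++ bs) = brs y as + brs y bs := by
  induction as with
  | nil => simp [brs]
  | cons a as ih =>
    rw [List.cons_append, brs, brs, ih]
    ring

theorem bok_append {k : ℕ} {r : Rad} {N : Bd} {as bs : List Blk}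
    (h : bok k r N (as ++ bs) = true) : bok k r N as = true ∧ bok k r N bs = true := by
  induction as with
  | nil => exact ⟨rfl, h⟩
  | cons a as ih =>
    rw [List.cons_append] at h
    simp only [bok, Bool.and_eq_true] at h ⊢
    exact ⟨⟨h.1, (ih h.2).1⟩, (ih h.2).2⟩

theorem brs_nonneg {k : ℕ} {r : Rad} {N : Bd} {bs : List Blk} (h : bok k r N bs = true)
    (hg : Goods Ln Ld bs) {y : Pnt} (hy : DomC Ln Ld y) : 0 ≤ brs y bs := by
  induction bs with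
  | nil => exact le_rfl
  | cons b bs ih =>
    simp only [bok, Bool.and_eq_true] at h
    exact add_nonneg (mul_nonneg (hg.1.nonneg hy) (Blk.q_nonneg h.1.1 y)) (ih h.2 hg.2)

/-- the inequality of one side for the three vertices -/
def SideP (K : ℕ) (Ln Ld : ℤ) (v0 v1 v2 : Vx) (T0 T1 T2 : Ex) : Prop :=
  ∃ B : ℝ, 0 ≤ B ∧ ∃ Q1 Q2 : Pnt → ℝ, ∀ y : Pnt, DomC Ln Ld y →
    0 ≤ Q1 y ∧ Q1 y ≤ B * (1 + y.f ^ 2 + y.g ^ 2) ^ (K + 1) ∧
    0 ≤ Q2 y ∧ Q2 y ≤ B * (1 + y.f ^ 2 + y.g ^ 2) ^ (K + 1) ∧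
    Q1 y * (eDs 1 v0.tn v0.sn v0.td).re y + Q2 y * (eDs (-1) v0.tn v0.sn v0.td).re y ≤ T0.re y ∧
    Q1 y * (eDs 1 v1.tn v1.sn v1.td).re y + Q2 y * (eDs (-1) v1.tn v1.sn v1.td).re y ≤ T1.re y ∧
    Q1 y * (eDs 1 v2.tn v2.sn v2.td).re y + Q2 y * (eDs (-1) v2.tn v2.sn v2.td).re y ≤ T2.re y

/-- the facts of a checked certificate -/
theorem cert_s {c : Cert} (h : c.check = true) : (0 : ℝ) < c.s ∧ bok c.k c.r c.N c.blocks = true := by
  simp only [Cert.check, Bool.and_eq_true, Nat.blt_eq] at h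
  exact ⟨by exact_mod_cast h.1.1.1.2, h.1.1.2⟩

/-- one certificate without disc blocks -/
theorem le_of_cert0 {c : Cert} (h : c.check = true) (hg : Goods Ln Ld c.blocks) {y : Pnt}
    (hy : DomC Ln Ld y) : 0 ≤ c.target.re y := by
  obtain ⟨h1, h2⟩ := cert_s h
  have h3 := Cert.sound h y
  have h4 := brs_nonneg h2 hg hy
  rw [← h3] at h4
  exact nonneg_of_mul_nonneg_right h4 h1

/-- one certificate with the disc blocks `d1`, `d2` -/
theorem le_of_cert {c : Cert} (h : c.check = true) {bs : List Blk} {d1 d2 : Blk} {e1 e2 : Ex}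
    (hb : c.blocks = bs ++ [wm e1 d1, wm e2 d2]) (hg : Goods Ln Ld bs) {s : ℕ} (hs : c.s = s)
    {y : Pnt} (hy : DomC Ln Ld y) :
    d1.q y / s * e1.re y + d2.q y / s * e2.re y ≤ c.target.re y := by
  obtain ⟨h1, h2⟩ := cert_s h
  have h3 := Cert.sound h y
  rw [hs] at h1 h3
  rw [hb] at h2
  obtain ⟨h5, -⟩ := bok_append h2
  have h4 := brs_nonneg h5 hg hy
  rw [hb, brs_append] at h3
  have h6 : brs y [wm e1 d1, wm e2 d2] = e1.re y * d1.q y + (e2.re y * d2.q y + 0) := rfl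
  rw [h6] at h3
  have h7 : d1.q y / s * e1.re y + d2.q y / s * e2.re y =
      (e1.re y * d1.q y + (e2.re y * d2.q y + 0)) / s := by ring
  rw [h7, div_le_iff₀ h1]
  linarith

/-- **side without disc blocks** -/
theorem side_of0 {K : ℕ} {v0 v1 v2 : Vx} {T0 T1 T2 : Ex} {c0 c1 c2 : Cert}
    (h0 : c0.check = true) (h1 : c1.check = true) (h2 : c2.check = true)
    (t0 : c0.target = T0) (t1 : c1.target = T1) (t2 : c2.target = T2)
    (g0 : Goods Ln Ld c0.blocks) (g1 : Goods Ln Ld c1.blocks) (g2 : Goods Ln Ld c2.blocks) :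
    SideP K Ln Ld v0 v1 v2 T0 T1 T2 := by
  refine ⟨0, le_rfl, fun _ => 0, fun _ => 0, fun y hy => ?_⟩
  have k0 := le_of_cert0 h0 g0 hy
  have k1 := le_of_cert0 h1 g1 hy
  have k2 := le_of_cert0 h2 g2 hy
  rw [t0] at k0
  rw [t1] at k1
  rw [t2] at k2
  simp only [zero_mul, add_zero, le_refl, true_and]
  exact ⟨k0, k1, k2⟩

/-- **side with two common disc blocks** -/
theorem side_of {K : ℕ} (hd : 0 < Ld) {v0 v1 v2 : Vx} {T0 T1 T2 : Ex} {c0 c1 c2 : Cert}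
    (h0 : c0.check = true) (h1 : c1.check = true) (h2 : c2.check = true)
    (t0 : c0.target = T0) (t1 : c1.target = T1) (t2 : c2.target = T2)
    {b0 b1 b2 : List Blk} {d1 d2 : Blk}
    (e0 : c0.blocks = b0 ++ [wm (eDs 1 v0.tn v0.sn v0.td) d1, wm (eDs (-1) v0.tn v0.sn v0.td) d2])
    (e1 : c1.blocks = b1 ++ [wm (eDs 1 v1.tn v1.sn v1.td) d1, wm (eDs (-1) v1.tn v1.sn v1.td) d2])
    (e2 : c2.blocks = b2 ++ [wm (eDs 1 v2.tn v2.sn v2.td) d1, wm (eDs (-1) v2.tn v2.sn v2.td) d2])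
    (g0 : Goods Ln Ld b0) (g1 : Goods Ln Ld b1) (g2 : Goods Ln Ld b2) {s : ℕ}
    (s0 : c0.s = s) (s1 : c1.s = s) (s2 : c2.s = s)
    (i1 : Bdd.itb (K + 1) d1.its = true) (i2 : Bdd.itb (K + 1) d2.its = true) :
    SideP K Ln Ld v0 v1 v2 T0 T1 T2 := by
  obtain ⟨hs, hk⟩ := cert_s h0
  rw [s0] at hs
  rw [e0] at hk
  obtain ⟨-, hk2⟩ := bok_append hk
  simp only [bok, Bool.and_eq_true] at hk2
  obtain ⟨⟨k1, _⟩, ⟨k2, _⟩, _⟩ := hk2
  by_cases hL : 0 ≤ (Ln : ℝ) / Ld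
  · obtain ⟨C1, hC1, q1⟩ := Bdd.q_bd k1 i1 hL
    obtain ⟨C2, hC2, q2⟩ := Bdd.q_bd k2 i2 hL
    refine ⟨(C1 + C2) / s, by positivity, fun y => d1.q y / s, fun y => d2.q y / s,
      fun y hy => ?_⟩
    have a1 := le_of_cert h0 e0 g0 s0 hy
    have a2 := le_of_cert h1 e1 g1 s1 hy
    have a3 := le_of_cert h2 e2 g2 s2 hy
    rw [t0] at a1
    rw [t1] at a2
    rw [t2] at a3
    have p1 : 0 ≤ d1.q y := Blk.q_nonneg k1 y
    have p2 : 0 ≤ d2.q y := Blk.q_nonneg k2 y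
    have r1 : d1.q y ≤ C1 * (1 + y.f ^ 2 + y.g ^ 2) ^ (K + 1) := q1 y (hy.dom0 hd)
    have r2 : d2.q y ≤ C2 * (1 + y.f ^ 2 + y.g ^ 2) ^ (K + 1) := q2 y (hy.dom0 hd)
    have hp : 0 ≤ (1 + y.f ^ 2 + y.g ^ 2) ^ (K + 1) := by positivity
    refine ⟨div_nonneg p1 hs.le, ?_, div_nonneg p2 hs.le, ?_, a1, a2, a3⟩
    · rw [div_mul_eq_mul_div]
      refine div_le_div_of_nonneg_right ?_ hs.le
      rw [add_mul]
      linarith [mul_nonneg hC2 hp]
    · rw [div_mul_eq_mul_div]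
      refine div_le_div_of_nonneg_right ?_ hs.le
      rw [add_mul]
      linarith [mul_nonneg hC1 hp]
  · refine ⟨0, le_rfl, fun y => 0, fun y => 0, fun y hy => ?_⟩
    exact absurd ((hy.dom0 hd).a0.trans (hy.dom0 hd).a1) hL

end Pool.Agent.Helper42.CKC
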