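import Pool.Agent.Helper42.CKC.Tgt
import Pool.Agent.Helper42.CKC.Side
import Pool.Agent.Helper11.CKC.Fast
import Pool.Agent.Helper99.CKC.Point
set_option autoImplicit false
open Complex MeasureTheory Metric Set
open scoped Real ComplexConjugate

/-!
# Project CKC: from the certificates of three vertices to the inequality in every direction
-/

namespace Pool.Agent.Helper42.CKC

open Pool.Sos71 Pool.EK71 Pool.Agent.Helper52.EK Pool.Agent.Helper2.EK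
open Pool.Agent.Helper69.EK3 (AP aev af rF rF_eq)
open Pool.Agent.Helper71.CK (LIn LOut)
open Pool.Agent.Helper20.EK7 (InL OutL OutD)
open Pool.Agent.Helper99.CKC
open Pool.Agent.Helper11.CKC (CL MSc Mqc MqA)

/-- the mean of the coefficients of three fields -/
noncomputable def cf3 (s0 s1 s2 : ℝ) (F : ℤ) (r0 i0 r1 i1 r2 i2 : ℤ) : ℂ :=
  s0 * (((r0 : ℂ) + i0 * I) / F) + s1 * (((r1 : ℂ) + i1 * I) / F) + s2 * (((r2 : ℂ) + i2 * I) / F)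

/-- the null Lagrangian -/
noncomputable def DatC.NN (D : DatC) (v0 v1 v2 : Vx) (τ s0 s1 s2 : ℝ) (x q : ℂ) (η : ℝ) : ℝ :=
  1 / D.M * (NGs D.d τ D.G0 x q η + τ * NGs D.d τ D.G1 x q η +
    (s0 * NHms v0.HM x q η + s1 * NHms v1.HM x q η + s2 * NHms v2.HM x q η))

theorem rF_div (p0 p1 p2 r : ℝ) (w : ℂ) :
    rF (p0 / r) (p1 / r) (p2 / r) w = rF p0 p1 p2 w / r := by
  unfold rF
  ring

theorem dom_pt {Ln Ld : ℤ} {l η : ℝ} {x : ℂ} (q : ℂ) (hη : η ∈ Icc (0:ℝ) π)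
    (hx : Real.sin η * ‖x‖ ≤ 10) (h0 : 0 ≤ l) (h1 : (Ld : ℝ) * l ≤ Ln) :
    DomC Ln Ld (pt7 l η q x) := by
  obtain ⟨s0, s1, c0, c1⟩ := half_bd hη
  have hs := sin_half η
  have e2 : ‖x‖ ^ 2 = x.re ^ 2 + x.im ^ 2 := by
    rw [← Complex.normSq_eq_norm_sq, Complex.normSq_apply]
    ring
  have hr : Bdd.rho (pt7 l η q x) ≤ 1 + ‖x‖ := by
    unfold Bdd.rho pt7
    rw [Real.sqrt_le_left (by positivity)]
    nlinarith [norm_nonneg x]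
  refine ⟨s0, c0, Real.sin_sq_add_cos_sq _, h0, h1, ?_⟩
  have h3 : 0 ≤ Real.sin (η / 2) * Real.cos (η / 2) := mul_nonneg s0 c0
  have h4 := mul_le_mul_of_nonneg_left hr h3
  refine h4.trans ?_
  have h5 : Real.sin (η / 2) * Real.cos (η / 2) * (1 + ‖x‖) =
      Real.sin η / 2 + Real.sin η * ‖x‖ / 2 := by
    rw [hs]
    ring
  rw [h5]
  linarith [Real.sin_le_one η]

/-- the mean of the fields of three vertices -/
theorem bf_jensen {s0 s1 s2 : ℝ} (p0 : 0 ≤ s0) (p1 : 0 ≤ s1) (p2 : 0 ≤ s2)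
    (hs : s0 + s1 + s2 = 1) (F : ℤ) (hF : 0 < F) (v0 v1 v2 : Vx) (s : ℤ) (f0 f1 f2 : Fl) (l : ℝ)
    (w e : ℂ) : (F : ℝ) ^ 2 * ‖cf3 s0 s1 s2 F v0.gm 0 v1.gm 0 v2.gm 0 * w +
        cf3 s0 s1 s2 F v0.cR v0.cI v1.cR v1.cI v2.cR v2.cI +
        (l : ℂ) * ((s * cf3 s0 s1 s2 F f0.aR f0.aI f1.aR f1.aI f2.aR f2.aI) * w +
          s * cf3 s0 s1 s2 F f0.bR f0.bI f1.bR f1.bI f2.bR f2.bI) - e‖ ^ 2 ≤
      s0 * ‖Bf s v0.gm v0.cR v0.cI f0 l w - F * e‖ ^ 2 +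
        s1 * ‖Bf s v1.gm v1.cR v1.cI f1 l w - F * e‖ ^ 2 +
        s2 * ‖Bf s v2.gm v2.cR v2.cI f2 l w - F * e‖ ^ 2 := by
  have h := sq_jensen ⟨s0, s1, s2⟩ p0 p1 p2 hs (Bf s v0.gm v0.cR v0.cI f0 l w)
    (Bf s v1.gm v1.cR v1.cI f1 l w) (Bf s v2.gm v2.cR v2.cI f2 l w) (F * e)
  unfold W3.r W3.z at h
  simp only at h
  refine le_trans (le_of_eq ?_) h
  have hF' : (F : ℂ) ≠ 0 := by exact_mod_cast hF.ne'
  have hn : ‖(F : ℂ)‖ = F := by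
    have : (F : ℂ) = ((F : ℝ) : ℂ) := by push_cast; rfl
    rw [this, norm_real, Real.norm_eq_abs, abs_of_pos (by exact_mod_cast hF)]
  rw [← hn, ← mul_pow, ← norm_mul]
  congr 2
  unfold cf3 Bf
  push_cast
  field_simp
  ring

theorem FF_mul {D : DatC} {v : Vx} (h : 0 < v.td) (s : ℤ) (f : Fl) (L0 L1 : CL) (l : ℝ)
    (x q : ℂ) (η a : ℝ) : a / v.td * D.FF v s f L0 L1 l x q η =
    -2 * D.Mt * (a * ‖Bf s v.gm v.cR v.cI f l (wx x q (Real.sin η) (Real.cos η)) -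
      D.Fd * e0 (Real.sin η) (Real.cos η)‖ ^ 2) + 2 * (a * NHms v.HM x q η) +
    2 * (a / v.td * NGsv D.d v.td (v.td + v.tn * I) D.G0 x q η +
      a / v.td * NGsv D.d v.tn (v.tn + v.sn * I) D.G1 x q η) +
    (a / v.td * MTv v.td (v.td + v.tn * I) L0 l (wx x q (Real.sin η) (Real.cos η))
        (e0 (Real.sin η) (Real.cos η)) x +
      a / v.td * MTv v.tn (v.tn + v.sn * I) L1 l (wx x q (Real.sin η) (Real.cos η))
        (e0 (Real.sin η) (Real.cos η)) x) +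
    2 * (a * (v.lam * (‖x‖ ^ 2 + x.re) - v.ka * x.re)) := by
  have u : (v.td : ℝ) ≠ 0 := by exact_mod_cast h.ne'
  have e : a / v.td * v.td = a := div_mul_cancel₀ _ u
  unfold DatC.FF
  linear_combination (-2 * D.Mt * ‖Bf s v.gm v.cR v.cI f l (wx x q (Real.sin η) (Real.cos η)) -
      D.Fd * e0 (Real.sin η) (Real.cos η)‖ ^ 2 + 2 * NHms v.HM x q η +
      2 * (v.lam * (‖x‖ ^ 2 + x.re) - v.ka * x.re)) * e

/-- the bound of the factors of the discs -/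
theorem k_bd {B N Dk M Q t : ℝ} {K : ℕ} (hB : 0 ≤ B) (hM : 0 < M) (ht : 1 ≤ t) (hD : 0 < Dk)
    (hN : t ≤ N * Dk) (hQ : Q ≤ B * t ^ (K + 1)) :
    Q / (2 * M * Dk ^ K) ≤ B * N ^ K / (2 * M) * t := by
  have h0 : 0 < t := by linarith
  have hDK : 0 < Dk ^ K := pow_pos hD K
  rw [div_le_iff₀ (by positivity)]
  have h1 : t ^ K ≤ (N * Dk) ^ K := pow_le_pow_left₀ h0.le hN K
  have h2 : B * t * t ^ K ≤ B * t * (N * Dk) ^ K := mul_le_mul_of_nonneg_left h1 (by positivity)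
  have e : B * N ^ K / (2 * M) * t * (2 * M * Dk ^ K) = B * t * (N * Dk) ^ K := by
    rw [mul_pow]
    field_simp
  rw [e]
  refine hQ.trans (le_trans (le_of_eq ?_) h2)
  rw [pow_succ]
  ring

/-- **one side** -/
theorem side_pt {D : DatC} (w : D.Wf) {v0 v1 v2 : Vx} (hM : 0 < D.M) (hF : 0 < D.Fd)
    (hMF : D.M = D.Fd ^ 2 * D.Mt) (t0 : 0 < v0.td) (t1 : 0 < v1.td) (t2 : 0 < v2.td)
    {Ln Ld s r0 r1 r2 : ℤ} {f0 f1 f2 : Fl} {L0 L1 : CL} (h0 : ∀ t ∈ L0, t.2.1 ≤ 2)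
    (h1 : ∀ t ∈ L1, t.2.1 ≤ 2) {R0 R1 R2 : List Rm} {B : ℝ} (hB : 0 ≤ B) {Q1 Q2 : Pnt → ℝ}
    (hQ : ∀ y : Pnt, DomC Ln Ld y →
      0 ≤ Q1 y ∧ Q1 y ≤ B * (1 + y.f ^ 2 + y.g ^ 2) ^ (D.K + 1) ∧
      0 ≤ Q2 y ∧ Q2 y ≤ B * (1 + y.f ^ 2 + y.g ^ 2) ^ (D.K + 1) ∧
      Q1 y * (eDs 1 v0.tn v0.sn v0.td).re y + Q2 y * (eDs (-1) v0.tn v0.sn v0.td).re y ≤
        (D.target v0 s r0 r1 r2 f0 L0 L1 R0).re y ∧
      Q1 y * (eDs 1 v1.tn v1.sn v1.td).re y + Q2 y * (eDs (-1) v1.tn v1.sn v1.td).re y ≤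
        (D.target v1 s r0 r1 r2 f1 L0 L1 R1).re y ∧
      Q1 y * (eDs 1 v2.tn v2.sn v2.td).re y + Q2 y * (eDs (-1) v2.tn v2.sn v2.td).re y ≤
        (D.target v2 s r0 r1 r2 f2 L0 L1 R2).re y)
    {τ s0 s1 s2 : ℝ} (p0 : 0 ≤ s0) (p1 : 0 ≤ s1) (p2 : 0 ≤ s2) (hs : s0 + s1 + s2 = 1)
    (hτ : s0 * (v0.tn / v0.td) + s1 * (v1.tn / v1.td) + s2 * (v2.tn / v2.td) = τ)
    (hσ : s0 * (v0.sn / v0.td) + s1 * (v1.sn / v1.td) + s2 * (v2.sn / v2.td) = τ ^ 2)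
    {x q : ℂ} {η : ℝ} (hη : η ∈ Icc (0:ℝ) π) (hx : Real.sin η * ‖x‖ ≤ 10) {l : ℝ} (l0 : 0 ≤ l)
    (l1 : (Ld : ℝ) * l ≤ Ln)
    (hr : D.rd * (‖wx x q (Real.sin η) (Real.cos η)‖ ^ 2 - 1) +
      s * l * rF r0 r1 r2 (wx x q (Real.sin η) (Real.cos η)) = 0) :
    ∃ k1 k2 : ℝ, 0 ≤ k1 ∧ k1 ≤ B * D.d.N ^ D.K / (2 * D.M) * (1 + ‖x‖ ^ 2) ∧
      0 ≤ k2 ∧ k2 ≤ B * D.d.N ^ D.K / (2 * D.M) * (1 + ‖x‖ ^ 2) ∧
      ‖cf3 s0 s1 s2 D.Fd v0.gm 0 v1.gm 0 v2.gm 0 * wx x q (Real.sin η) (Real.cos η) +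
        cf3 s0 s1 s2 D.Fd v0.cR v0.cI v1.cR v1.cI v2.cR v2.cI +
        (l : ℂ) * ((s * cf3 s0 s1 s2 D.Fd f0.aR f0.aI f1.aR f1.aI f2.aR f2.aI) *
            wx x q (Real.sin η) (Real.cos η) +
          s * cf3 s0 s1 s2 D.Fd f0.bR f0.bI f1.bR f1.bI f2.bR f2.bI) -
        e0 (Real.sin η) (Real.cos η)‖ ^ 2 +
        k1 * dpol τ 1 x q (Real.sin η) (Real.cos η) +
        k2 * dpol τ (-1) x q (Real.sin η) (Real.cos η) ≤
      -(s0 * (v0.ka / D.M) + s1 * (v1.ka / D.M) + s2 * (v2.ka / D.M)) * x.re +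
        (s0 * (v0.lam / D.M) + s1 * (v1.lam / D.M) + s2 * (v2.lam / D.M)) *
          (‖x‖ ^ 2 + x.re) + D.NN v0 v1 v2 τ s0 s1 s2 x q η +
        ((MSc L0 l (wx x q (Real.sin η) (Real.cos η)) / D.M + (τ : ℂ) *
          (MSc L1 l (wx x q (Real.sin η) (Real.cos η)) / D.M)) * e0 (Real.sin η) (Real.cos η) *
          ((1 + I * τ) / 2 * x ^ 2 + x)).re := by
  obtain ⟨a1, a2, a3, a4, a5, a6, a7⟩ := hQ _ (dom_pt q hη hx l0 l1)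
  rw [eDs_re, eDs_re, D.target_re l η q x w v0 s r0 r1 r2 f0 h0 h1 R0 hr] at a5
  rw [eDs_re, eDs_re, D.target_re l η q x w v1 s r0 r1 r2 f1 h0 h1 R1 hr] at a6
  rw [eDs_re, eDs_re, D.target_re l η q x w v2 s r0 r1 r2 f2 h0 h1 R2 hr] at a7
  have hD1 := Dc_pos D.d x.re x.im
  have hD : 0 < Dc D.d x.re x.im ^ D.K := pow_pos hD1 _
  have hM' : (0:ℝ) < D.M := by exact_mod_cast hM
  have hF' : (0:ℝ) < D.Fd := by exact_mod_cast hF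
  have hMF' : (D.M : ℝ) = D.Fd ^ 2 * D.Mt := by exact_mod_cast hMF
  have hMt : (0:ℝ) < D.Mt := by
    by_contra hc
    have : (D.Fd : ℝ) ^ 2 * D.Mt ≤ 0 := mul_nonpos_of_nonneg_of_nonpos (by positivity) (not_lt.1 hc)
    linarith
  have u0 : (0:ℝ) < v0.td := by exact_mod_cast t0
  have u1 : (0:ℝ) < v1.td := by exact_mod_cast t1
  have u2 : (0:ℝ) < v2.td := by exact_mod_cast t2
  obtain ⟨W, hW⟩ : ∃ W : W3, W = ⟨s0 / v0.td, s1 / v1.td, s2 / v2.td⟩ := ⟨_, rfl⟩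
  have wr : ∀ a b c : ℝ, W.r a b c = s0 / v0.td * a + s1 / v1.td * b + s2 / v2.td * c := by
    intro a b c
    rw [hW]
    rfl
  have etd : W.r v0.td v1.td v2.td = 1 := by
    rw [wr, div_mul_cancel₀ _ u0.ne', div_mul_cancel₀ _ u1.ne', div_mul_cancel₀ _ u2.ne', hs]
  have etn : W.r v0.tn v1.tn v2.tn = τ := by
    rw [wr, ← hτ]
    ring
  have esn : W.r v0.sn v1.sn v2.sn = τ ^ 2 := by
    rw [wr, ← hσ]
    ring
  have zz : ∀ a b c a' b' c' : ℝ, W.z ((a : ℂ) + a' * I) ((b : ℂ) + b' * I) ((c : ℂ) + c' * I) =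
      (W.r a b c : ℂ) + (W.r a' b' c' : ℂ) * I := by
    intro a b c a' b' c'
    unfold W3.z W3.r
    push_cast
    ring
  have z1 : W.z ((v0.td : ℂ) + v0.tn * I) ((v1.td : ℂ) + v1.tn * I) ((v2.td : ℂ) + v2.tn * I) =
      1 + τ * I := by
    have := zz v0.td v1.td v2.td v0.tn v1.tn v2.tn
    rw [etd, etn] at this
    push_cast at this
    exact this
  have z2 : W.z ((v0.tn : ℂ) + v0.sn * I) ((v1.tn : ℂ) + v1.sn * I) ((v2.tn : ℂ) + v2.sn * I) =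
      τ + (τ ^ 2 : ℝ) * I := by
    have := zz v0.tn v1.tn v2.tn v0.sn v1.sn v2.sn
    rw [etn, esn] at this
    push_cast at this ⊢
    exact this
  have dd : ∀ σ : ℝ, W.r (dpv v0.td v0.tn v0.sn σ x q (Real.sin η) (Real.cos η))
      (dpv v1.td v1.tn v1.sn σ x q (Real.sin η) (Real.cos η))
      (dpv v2.td v2.tn v2.sn σ x q (Real.sin η) (Real.cos η)) =
      dpol τ σ x q (Real.sin η) (Real.cos η) := by
    intro σ
    rw [← dpv_lin, etd, etn, esn, dpv_dpol]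
  have g0 : W.r (NGsv D.d v0.td (v0.td + v0.tn * I) D.G0 x q η)
      (NGsv D.d v1.td (v1.td + v1.tn * I) D.G0 x q η)
      (NGsv D.d v2.td (v2.td + v2.tn * I) D.G0 x q η) = NGs D.d τ D.G0 x q η := by
    rw [← NGsv_lin, etd, z1, NGsv_tau]
  have g1 : W.r (NGsv D.d v0.tn (v0.tn + v0.sn * I) D.G1 x q η)
      (NGsv D.d v1.tn (v1.tn + v1.sn * I) D.G1 x q η)
      (NGsv D.d v2.tn (v2.tn + v2.sn * I) D.G1 x q η) = τ * NGs D.d τ D.G1 x q η := by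
    rw [← NGsv_lin, etn, z2, NGsv_tau']
  obtain ⟨w', hw'⟩ : ∃ w', w' = wx x q (Real.sin η) (Real.cos η) := ⟨_, rfl⟩
  obtain ⟨e, he⟩ : ∃ e, e = e0 (Real.sin η) (Real.cos η) := ⟨_, rfl⟩
  have m0 : W.r (MTv v0.td (v0.td + v0.tn * I) L0 l w' e x)
      (MTv v1.td (v1.td + v1.tn * I) L0 l w' e x) (MTv v2.td (v2.td + v2.tn * I) L0 l w' e x) =
      2 * (MSc L0 l w' * e * ((1 + I * τ) / 2 * x ^ 2 + x)).re := by
    rw [← MTv_lin, etd, z1, MTv_tau]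
  have m1 : W.r (MTv v0.tn (v0.tn + v0.sn * I) L1 l w' e x)
      (MTv v1.tn (v1.tn + v1.sn * I) L1 l w' e x) (MTv v2.tn (v2.tn + v2.sn * I) L1 l w' e x) =
      2 * (τ * MSc L1 l w' * e * ((1 + I * τ) / 2 * x ^ 2 + x)).re := by
    rw [← MTv_lin, etn, z2, MTv_tau']
  have jen := bf_jensen p0 p1 p2 hs D.Fd hF v0 v1 v2 s f0 f1 f2 l w' e
  -- sum of the three inequalities
  have b0 : 0 ≤ s0 / v0.td := div_nonneg p0 u0.le
  have b1 : 0 ≤ s1 / v1.td := div_nonneg p1 u1.le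
  have b2 : 0 ≤ s2 / v2.td := div_nonneg p2 u2.le
  have c0 := mul_le_mul_of_nonneg_left a5 b0
  have c1 := mul_le_mul_of_nonneg_left a6 b1
  have c2 := mul_le_mul_of_nonneg_left a7 b2
  have d1 := dd 1
  have d2 := dd (-1)
  rw [wr] at d1 d2 g0 g1 m0 m1
  have F0 := FF_mul (D := D) t0 s f0 L0 L1 l x q η s0
  have F1 := FF_mul (D := D) t1 s f1 L0 L1 l x q η s1
  have F2 := FF_mul (D := D) t2 s f2 L0 L1 l x q η s2
  rw [← hw', ← he] at F0 F1 F2 ⊢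
  have hmul : (2:ℝ) * D.M * ((MSc L0 l w' / D.M + (τ : ℂ) * (MSc L1 l w' / D.M)) * e *
      ((1 + I * τ) / 2 * x ^ 2 + x)).re =
      2 * (MSc L0 l w' * e * ((1 + I * τ) / 2 * x ^ 2 + x)).re +
      2 * (τ * MSc L1 l w' * e * ((1 + I * τ) / 2 * x ^ 2 + x)).re := by
    have hMc : (D.M : ℂ) ≠ 0 := by exact_mod_cast hM.ne'
    rw [← mul_add, ← add_re, mul_assoc]
    congr 1
    have e5 : ((D.M : ℤ) : ℝ) * ((MSc L0 l w' / D.M + (τ : ℂ) * (MSc L1 l w' / D.M)) * e *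
      ((1 + I * τ) / 2 * x ^ 2 + x)).re = (((D.M : ℝ) : ℂ) * ((MSc L0 l w' / D.M + (τ : ℂ) *
      (MSc L1 l w' / D.M)) * e * ((1 + I * τ) / 2 * x ^ 2 + x))).re := by rw [re_ofReal_mul]
    rw [e5]
    congr 1
    push_cast
    field_simp
  have hnn : (2:ℝ) * D.M * D.NN v0 v1 v2 τ s0 s1 s2 x q η =
      2 * (NGs D.d τ D.G0 x q η + τ * NGs D.d τ D.G1 x q η +
        (s0 * NHms v0.HM x q η + s1 * NHms v1.HM x q η + s2 * NHms v2.HM x q η)) := by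
    unfold DatC.NN
    field_simp
  have hkl : (2:ℝ) * D.M * (-(s0 * (v0.ka / D.M) + s1 * (v1.ka / D.M) + s2 * (v2.ka / D.M)) *
        x.re + (s0 * (v0.lam / D.M) + s1 * (v1.lam / D.M) + s2 * (v2.lam / D.M)) *
          (‖x‖ ^ 2 + x.re)) =
      2 * (s0 * (v0.lam * (‖x‖ ^ 2 + x.re) - v0.ka * x.re)) +
      2 * (s1 * (v1.lam * (‖x‖ ^ 2 + x.re) - v1.ka * x.re)) +
      2 * (s2 * (v2.lam * (‖x‖ ^ 2 + x.re) - v2.ka * x.re)) := by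
    field_simp
    ring
  have hN : 1 + ‖x‖ ^ 2 ≤ D.d.N * Dc D.d x.re x.im := by
    have h := Dc_low D.d x.re x.im
    have e2 : ‖x‖ ^ 2 = x.re ^ 2 + x.im ^ 2 := by
      rw [← Complex.normSq_eq_norm_sq, Complex.normSq_apply]
      ring
    rw [e2]
    exact h
  have e2 : 1 + ‖x‖ ^ 2 = 1 + (pt7 l η q x).f ^ 2 + (pt7 l η q x).g ^ 2 := by
    rw [← Complex.normSq_eq_norm_sq, Complex.normSq_apply]
    show 1 + (x.re * x.re + x.im * x.im) = 1 + x.re ^ 2 + x.im ^ 2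
    ring
  rw [← e2] at a2 a4
  have ht1 : (1:ℝ) ≤ 1 + ‖x‖ ^ 2 := le_add_of_nonneg_right (sq_nonneg _)
  have hMD : 0 < 2 * (D.M : ℝ) * Dc D.d x.re x.im ^ D.K := by positivity
  refine ⟨Q1 (pt7 l η q x) / (2 * D.M * Dc D.d x.re x.im ^ D.K),
    Q2 (pt7 l η q x) / (2 * D.M * Dc D.d x.re x.im ^ D.K), div_nonneg a1 hMD.le,
    k_bd hB hM' ht1 hD1 hN a2, div_nonneg a3 hMD.le, k_bd hB hM' ht1 hD1 hN a4, ?_⟩
  generalize Q1 (pt7 l η q x) = q1 at *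
  generalize Q2 (pt7 l η q x) = q2 at *
  generalize ‖cf3 s0 s1 s2 D.Fd v0.gm 0 v1.gm 0 v2.gm 0 * w' +
        cf3 s0 s1 s2 D.Fd v0.cR v0.cI v1.cR v1.cI v2.cR v2.cI +
        (l : ℂ) * ((s * cf3 s0 s1 s2 D.Fd f0.aR f0.aI f1.aR f1.aI f2.aR f2.aI) * w' +
          s * cf3 s0 s1 s2 D.Fd f0.bR f0.bI f1.bR f1.bI f2.bR f2.bI) - e‖ ^ 2 = T at *
  generalize ‖Bf s v0.gm v0.cR v0.cI f0 l w' - D.Fd * e‖ ^ 2 = A0 at *
  generalize ‖Bf s v1.gm v1.cR v1.cI f1 l w' - D.Fd * e‖ ^ 2 = A1 at *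
  generalize ‖Bf s v2.gm v2.cR v2.cI f2 l w' - D.Fd * e‖ ^ 2 = A2 at *
  have jen2 : (D.M : ℝ) * T ≤ D.Mt * (s0 * A0 + s1 * A1 + s2 * A2) := by
    rw [hMF', mul_comm ((D.Fd : ℝ) ^ 2), mul_assoc]
    exact mul_le_mul_of_nonneg_left jen hMt.le
  generalize ((MSc L0 l w' / D.M + (τ : ℂ) * (MSc L1 l w' / D.M)) * e *
      ((1 + I * τ) / 2 * x ^ 2 + x)).re = MM at *
  generalize hKL : -(s0 * (v0.ka / D.M) + s1 * (v1.ka / D.M) + s2 * ((v2.ka : ℝ) / D.M)) *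
        x.re + (s0 * (v0.lam / D.M) + s1 * (v1.lam / D.M) + s2 * (v2.lam / D.M)) *
          (‖x‖ ^ 2 + x.re) = KL at *
  generalize D.NN v0 v1 v2 τ s0 s1 s2 x q η = Nn at *
  have S1 : s0 / v0.td * D.FF v0 s f0 L0 L1 l x q η + s1 / v1.td * D.FF v1 s f1 L0 L1 l x q η +
      s2 / v2.td * D.FF v2 s f2 L0 L1 l x q η ≤ 2 * D.M * (KL + Nn + MM - T) := by
    rw [F0, F1, F2]
    have : 2 * (D.M : ℝ) * (KL + Nn + MM - T) = 2 * D.M * KL + 2 * D.M * Nn + 2 * D.M * MM -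
      2 * (D.M * T) := by ring
    rw [this, hkl, hnn, hmul]
    linarith
  have S2 : q1 * dpol τ 1 x q (Real.sin η) (Real.cos η) +
      q2 * dpol τ (-1) x q (Real.sin η) (Real.cos η) ≤
      Dc D.d x.re x.im ^ D.K * (2 * D.M * (KL + Nn + MM - T)) := by
    refine le_trans ?_ (mul_le_mul_of_nonneg_left S1 hD.le)
    rw [← d1, ← d2]
    push_cast at c0 c1 c2
    linarith
  have S3 : q1 / (2 * D.M * Dc D.d x.re x.im ^ D.K) * dpol τ 1 x q (Real.sin η) (Real.cos η) +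
      q2 / (2 * D.M * Dc D.d x.re x.im ^ D.K) * dpol τ (-1) x q (Real.sin η) (Real.cos η) ≤
      KL + Nn + MM - T := by
    have e7 : q1 / (2 * D.M * Dc D.d x.re x.im ^ D.K) * dpol τ 1 x q (Real.sin η) (Real.cos η) +
      q2 / (2 * D.M * Dc D.d x.re x.im ^ D.K) * dpol τ (-1) x q (Real.sin η) (Real.cos η) =
      (q1 * dpol τ 1 x q (Real.sin η) (Real.cos η) +
      q2 * dpol τ (-1) x q (Real.sin η) (Real.cos η)) / (2 * D.M * Dc D.d x.re x.im ^ D.K) := by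
      ring
    rw [e7, div_le_iff₀ hMD]
    refine S2.trans (le_of_eq ?_)
    ring
  linarith

end Pool.Agent.Helper42.CKC
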