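import Pool.Agent.Helper42.CKC.Lin
set_option autoImplicit false
open Complex MeasureTheory Metric Set
open scoped Real ComplexConjugate

/-!
# Project CKC: the value of the target of one vertex
-/

namespace Pool.Agent.Helper42.CKC

open Pool.Sos71 Pool.EK71 Pool.Agent.Helper52.EK Pool.Agent.Helper2.EK
open Pool.Agent.Helper69.EK3 (AP aev af imul_cast' iadd_cast' ofNat_cast' rF)
open Pool.Agent.Helper99.CKC
open Pool.Agent.Helper11.CKC (CL MSc ineg_cast')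

namespace DatC
variable (D : DatC)

/-- `2 td M F` at a vertex -/
noncomputable def FF (v : Vx) (s : ℤ) (f : Fl) (L0 L1 : CL) (l : ℝ) (x q : ℂ) (η : ℝ) : ℝ :=
  -2 * (v.td * D.Mt) * ‖Bf s v.gm v.cR v.cI f l (wx x q (Real.sin η) (Real.cos η)) -
      D.Fd * e0 (Real.sin η) (Real.cos η)‖ ^ 2 + 2 * v.td * NHms v.HM x q η +
    2 * (NGsv D.d v.td (v.td + v.tn * I) D.G0 x q η + NGsv D.d v.tn (v.tn + v.sn * I) D.G1 x q η) +
    (MTv v.td (v.td + v.tn * I) L0 l (wx x q (Real.sin η) (Real.cos η))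
        (e0 (Real.sin η) (Real.cos η)) x +
      MTv v.tn (v.tn + v.sn * I) L1 l (wx x q (Real.sin η) (Real.cos η))
        (e0 (Real.sin η) (Real.cos η)) x) +
    2 * v.td * (v.lam * (‖x‖ ^ 2 + x.re) - v.ka * x.re)

/-- conditions on the data -/
structure Wf : Prop where
  g0 : ∀ G ∈ D.G0, G.k + 1 ≤ D.K
  g1 : ∀ G ∈ D.G1, G.k + 1 ≤ D.K
  i0 : ∀ t ∈ D.MI0, t.2.1 ≤ 2
  i1 : ∀ t ∈ D.MI1, t.2.1 ≤ 2
  o0 : ∀ t ∈ D.MO0, t.2.1 ≤ 2
  o1 : ∀ t ∈ D.MO1, t.2.1 ≤ 2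

def wf : Bool :=
  D.G0.all (fun G => Nat.ble (G.k + 1) D.K) && D.G1.all (fun G => Nat.ble (G.k + 1) D.K) &&
    D.MI0.all (fun t => Nat.ble t.2.1 2) && D.MI1.all (fun t => Nat.ble t.2.1 2) &&
    D.MO0.all (fun t => Nat.ble t.2.1 2) && D.MO1.all (fun t => Nat.ble t.2.1 2)

theorem wf_iff (h : D.wf = true) : D.Wf := by
  simp only [wf, Bool.and_eq_true, Nat.ble_eq, List.all_eq_true] at h
  obtain ⟨⟨⟨⟨⟨h1, h2⟩, h3⟩, h4⟩, h5⟩, h6⟩ := h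
  exact ⟨h1, h2, h3, h4, h5, h6⟩

variable {D}
variable (l η : ℝ) (q x : ℂ)

theorem eLin_re (v : Vx) : (D.eLin v).re (pt7 l η q x) = Dc D.d x.re x.im ^ D.K *
    (2 * v.td * (v.lam * (‖x‖ ^ 2 + x.re) - v.ka * x.re)) := by
  have e : (D.eLin v).re (pt7 l η q x) = xo.re (pt7 l η q x) ^ D.h * ev2 x.re x.im
      (mu2 [[0, 0, Int.mul (Int.mul 2 v.td) v.lam],
        [Int.mul (Int.mul 2 v.td) (Int.add v.lam (Int.neg v.ka))],
        [Int.mul (Int.mul 2 v.td) v.lam]] (Dk D.d D.K)) := rfl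
  have e2 : ‖x‖ ^ 2 = x.re ^ 2 + x.im ^ 2 := by
    rw [← Complex.normSq_eq_norm_sq, Complex.normSq_apply]
    ring
  rw [e, v_xo, one_pow, one_mul, ev2_mu, Dk_ev, e2]
  simp only [ev2, ev1, imul_cast', iadd_cast', ineg_cast']
  push_cast
  ring

theorem NHms_eq (L : List HmC) (d : DC) (K : ℕ) :
    (L.map fun t => (EHm d K t).re (pt7 l η q x)).sum = Dc d x.re x.im ^ K * NHms L x q η := by
  simp only [EHm_re, map_mul_l]
  rfl

theorem NG_eq (z0 z1 z2 : ℤ) {d : DC} {K : ℕ} {L : List GrC} (hL : ∀ G ∈ L, G.k + 1 ≤ K) :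
    (L.map fun G => (EGc z0 z1 z2 d K G).re (pt7 l η q x)).sum =
      Dc d x.re x.im ^ K * NGsv d z0 ((z1 : ℂ) + z2 * I) L x q η := by
  rw [List.map_congr_left fun G hG => EGc_re l η q x z0 z1 z2 d (hL G hG), map_mul_l]
  rfl

theorem eMain_re (w : D.Wf) (v : Vx) (s : ℤ) (f : Fl) {L0 L1 : CL} (h0 : ∀ t ∈ L0, t.2.1 ≤ 2)
    (h1 : ∀ t ∈ L1, t.2.1 ≤ 2) : (D.eMain v s f L0 L1).re (pt7 l η q x) =
      Dc D.d x.re x.im ^ D.K * D.FF v s f L0 L1 l x q η := by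
  have e : (D.eMain v s f L0 L1).re (pt7 l η q x) =
      ((Int.mul (-2) (Int.mul v.td D.Mt) : ℤ) : ℝ) *
        (CX.nsq (cGv D.Fd s v.gm v.cR v.cI f)).re (pt7 l η q x) *
        (xo.re (pt7 l η q x) ^ (D.h - 2) * ev2 x.re x.im (Dk D.d D.K)) +
      (((Int.mul 2 v.td : ℤ) : ℝ) * (sumX (EHm D.d D.K) (Ex.mul (Ex.pow xo D.h) (Ex.lit 0))
          v.HM).re (pt7 l η q x) +
        (((2 : ℤ) : ℝ) * (sumX (EGc v.td v.td v.tn D.d D.K)
          (sumX (EGc v.tn v.tn v.sn D.d D.K) (Ex.mul (Ex.pow xo D.h) (Ex.lit 0)) D.G1)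
            D.G0).re (pt7 l η q x) +
        (sumX (EMc v.td v.td v.tn D.d D.K D.h)
          (sumX (EMc v.tn v.tn v.sn D.d D.K D.h) (D.eLin v) L1) L0).re (pt7 l η q x))) := rfl
  rw [e, CX.v_nsq, v_cGv, v_xo, one_pow, Dk_ev, sumX_re, lit0_re, NHms_eq, sumX_re, sumX_re,
    lit0_re, NG_eq l η q x _ _ _ w.g0, NG_eq l η q x _ _ _ w.g1, sumX_re, sumX_re,
    EMcs_re l η q x _ _ _ _ _ _ h0, EMcs_re l η q x _ _ _ _ _ _ h1, eLin_re, imul_cast',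
    imul_cast', imul_cast']
  unfold FF
  push_cast
  ring

theorem target_re (w : D.Wf) (v : Vx) (s r0 r1 r2 : ℤ) (f : Fl) {L0 L1 : CL}
    (h0 : ∀ t ∈ L0, t.2.1 ≤ 2) (h1 : ∀ t ∈ L1, t.2.1 ≤ 2) (R : List Rm)
    (hr : D.rd * (‖wx x q (Real.sin η) (Real.cos η)‖ ^ 2 - 1) +
      s * l * rF r0 r1 r2 (wx x q (Real.sin η) (Real.cos η)) = 0) :
    (D.target v s r0 r1 r2 f L0 L1 R).re (pt7 l η q x) =
      Dc D.d x.re x.im ^ D.K * D.FF v s f L0 L1 l x q η := by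
  have e : (D.target v s r0 r1 r2 f L0 L1 R).re (pt7 l η q x) =
      (D.eMain v s f L0 L1).re (pt7 l η q x) + (eCn D.rd s r0 r1 r2).re (pt7 l η q x) *
      (sumX (eRm D.d (D.K - D.kL)) (Ex.mul (Ex.pow xo (D.h - 2)) (Ex.lit 0)) R).re
        (pt7 l η q x) := rfl
  rw [e, eCn_re, hr, zero_mul, add_zero, eMain_re l η q x w v s f h0 h1]

end DatC

end Pool.Agent.Helper42.CKC
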