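import Pool.Agent.Helper42.CKC.Dat
set_option autoImplicit false
open Complex MeasureTheory Metric Set
open scoped Real ComplexConjugate

/-!
# Project CKC: values of the expressions
-/

namespace Pool.Agent.Helper42.CKC

open Pool.Sos71 Pool.EK71 Pool.Agent.Helper52.EK Pool.Agent.Helper2.EK
open Pool.Agent.Helper69.EK3 (AP aev af apE apE_re ader ash imul_cast' iadd_cast' ofNat_cast' rF
  rF_eq)
open Pool.Agent.Helper71.EKC (sb2 pw2 e_sb e_pw)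
open Pool.Agent.Helper99.CKC
open Pool.Agent.Helper11.CKC (CL MSc ineg_cast')

/-! ### real functions -/

/-- the integrand of a potential for the pair `(c₀, c₁)` -/
noncomputable def NPv (c0 : ℝ) (c1 : ℂ) (j : ℕ) (a a₁ : ℝ) (H H1 H2 : ℂ) (x q : ℂ) : ℝ :=
  (q ^ j * (I * c1 * a₁ * H + a * (H1 + I * H2) * conj (q * (c0 + c1 * x)))).re

noncomputable def NPotv (d : DC) (c0 : ℝ) (c1 : ℂ) (j k : ℕ) (t : AP × BP × BP) (x q : ℂ)
    (η : ℝ) : ℝ :=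
  NPv c0 c1 j (aC j t.1 η) (aC1 j t.1 η) (HD d k t.2.1 t.2.2 x)
    (HD d (k + 1) (qcX d k t.2.1) (qcX d k t.2.2) x)
    (HD d (k + 1) (qcY d k t.2.1) (qcY d k t.2.2) x) x q

noncomputable def NGv (d : DC) (c0 : ℝ) (c1 : ℂ) (G : GrC) (x q : ℂ) (η : ℝ) : ℝ :=
  (G.l.map fun t => NPotv d c0 c1 G.j G.k t x q η).sum

noncomputable def NGsv (d : DC) (c0 : ℝ) (c1 : ℂ) (L : List GrC) (x q : ℂ) (η : ℝ) : ℝ :=
  (L.map fun G => NGv d c0 c1 G x q η).sum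

/-- the multiplier term -/
noncomputable def MTv (c0 : ℝ) (c1 : ℂ) (L : CL) (l : ℝ) (w e x : ℂ) : ℝ :=
  (MSc L l w * e * (c1 * x ^ 2 + 2 * c0 * x)).re

/-- `td` times the polynomial of a disc -/
noncomputable def dpv (T t s' σ : ℝ) (x q : ℂ) (s c : ℝ) : ℝ :=
  4 * (T + s') - (T + s') * ‖s * q + 2 * σ * s * x‖ ^ 2 -
    2 * ((s * q + 2 * σ * s * x) * (2 * σ * s * (T + I * t) + I * c * (T + 2 * I * t - s'))).re -
    4 * T * s ^ 2 - c ^ 2 * (T + s') + 4 * σ * t * s * c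

theorem dpv_dpol (τ σ : ℝ) (x q : ℂ) (s c : ℝ) :
    dpv 1 τ (τ ^ 2) σ x q s c = dpol τ σ x q s c := by
  unfold dpv dpol
  have e : (2 * (σ : ℂ) * s * ((1 : ℝ) + I * τ) + I * c * ((1 : ℝ) + 2 * I * τ - ((τ ^ 2 : ℝ)))) =
      2 * σ * s * (1 + I * τ) + I * c * (1 + I * τ) ^ 2 := by
    push_cast
    linear_combination (-(I * (c : ℂ) * (τ : ℂ) ^ 2)) * I_sq
  rw [e]
  ring

/-! ### values -/

section val
variable (l η : ℝ) (q x : ℂ)

theorem Dk_ev (d : DC) (n : ℕ) : ev2 x.re x.im (Dk d n) = Dc d x.re x.im ^ n := by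
  rw [Dk, e_pw, e_Dc]

theorem v_cZ (y : Pnt) (a b : ℤ) : CX.v y (cZ a b) = (a : ℂ) + I * b := by
  apply Complex.ext
  · show (a : ℝ) = _
    simp
  · show (b : ℝ) = _
    simp

theorem bp_re (P : BP) : (Ex.bp P).re (pt7 l η q x) = ev2 x.re x.im P := rfl

theorem ap_re (g : AP) : (apE g).re (pt7 l η q x) = af g η := apE_re _ _

theorem ww_wx : ww q x η = wx x q (Real.sin η) (Real.cos η) := by
  unfold ww wx
  rw [ee_sq]

theorem sumX_re {ι : Type} (y : Pnt) (f : ι → Ex) (a : Ex) (L : List ι) :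
    (sumX f a L).re y = (L.map fun t => (f t).re y).sum + a.re y := by
  induction L with
  | nil => simp [sumX]
  | cons t L ih =>
    show (f t).re y + (sumX f a L).re y = _
    rw [ih, List.map_cons, List.sum_cons]
    ring

theorem lit0_re (y : Pnt) (h : ℕ) : (Ex.mul (Ex.pow xo h) (Ex.lit 0)).re y = 0 := by
  show (xo.re y) ^ h * ((0 : ℤ) : ℝ) = 0
  simp

theorem map_mul_l {ι : Type} (L : List ι) (f : ι → ℝ) (c : ℝ) :
    (L.map fun t => c * f t).sum = c * (L.map f).sum := List.sum_map_mul_left ..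

theorem EHm_re (d : DC) (K : ℕ) (t : HmC) :
    (EHm d K t).re (pt7 l η q x) = Dc d x.re x.im ^ K * NHm t x η := by
  have e : (EHm d K t).re (pt7 l η q x) = (apE (ader t.P)).re (pt7 l η q x) *
      ((CX.v (pt7 l η q x) (CX.mul (cZ t.cR t.cI) (CX.pw cx t.n))).re *
        ev2 x.re x.im (Dk d K)) := rfl
  rw [e, CX.v_mul, CX.v_pw, v_cZ, v_cx, Dk_ev, ap_re]
  unfold NHm
  push_cast
  ring

theorem adC_ev (j : ℕ) (g : AP) (S C : ℝ) : aev S C (ader (ash (j + 1) (j + 1) g)) =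
    (S * C) ^ j * aev S C (adC j g) := by
  induction g with
  | nil => simp [ader, ash, adC, aev]
  | cons t g ih =>
    obtain ⟨c, i, k⟩ := t
    have e1 : i + (j + 1) = (i + j) + 1 := by omega
    have e2 : k + (j + 1) = (k + j) + 1 := by omega
    have p1 : S ^ (i + j + 1) = S ^ i * S ^ j * S := by rw [pow_succ, pow_add]
    have p2 : C ^ (k + j + 1) = C ^ k * C ^ j * C := by rw [pow_succ, pow_add]
    simp only [ash, e1, e2, ader, adC, List.cons_append, List.nil_append, aev, imul_cast',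
      ofNat_cast', Nat.succ_eq_add_one]
    rw [ih]
    push_cast
    ring

theorem aC1_eq (j : ℕ) (g : AP) : aC1 j g η =
    (Real.sin (η / 2) * Real.cos (η / 2)) ^ j * af (adC j g) η := by
  unfold aC1 af
  rw [adC_ev]

theorem v_hM (d : DC) {K k : ℕ} (hk : k ≤ K) (t : AP × BP × BP) :
    CX.v (pt7 l η q x) (hM d K k t) = (Dc d x.re x.im ^ K : ℝ) * HD d k t.2.1 t.2.2 x := by
  have hD := (Dc_pos d x.re x.im).ne'
  have e : CX.v (pt7 l η q x) (hM d K k t) =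
      ((ev2 x.re x.im (mu2 t.2.1 (Dk d (K - k))) : ℝ) : ℂ) +
      I * ((ev2 x.re x.im (mu2 t.2.2 (Dk d (K - k))) : ℝ) : ℂ) := by
    apply Complex.ext
    · simp [CX.v, hM, bp_re]
    · simp [CX.v, hM, bp_re]
  rw [e, ev2_mu, ev2_mu, Dk_ev]
  unfold HD Rc
  obtain ⟨m, rfl⟩ := Nat.exists_eq_add_of_le hk
  rw [Nat.add_sub_cancel_left]
  push_cast
  have hD' : ((Dc d x.re x.im : ℝ) : ℂ) ≠ 0 := by exact_mod_cast hD
  field_simp
  ring

theorem v_hN (d : DC) {K k : ℕ} (hk : k + 1 ≤ K) (t : AP × BP × BP) :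
    CX.v (pt7 l η q x) (hN d K k t) = (Dc d x.re x.im ^ K : ℝ) *
      (HD d (k + 1) (qcX d k t.2.1) (qcX d k t.2.2) x +
        I * HD d (k + 1) (qcY d k t.2.1) (qcY d k t.2.2) x) := by
  have hD := (Dc_pos d x.re x.im).ne'
  have e : CX.v (pt7 l η q x) (hN d K k t) =
      ((ev2 x.re x.im (mu2 (sb2 (qcX d k t.2.1) (qcY d k t.2.2)) (Dk d (K - k - 1))) : ℝ) : ℂ) +
      I * ((ev2 x.re x.im (mu2 (ad2 (qcX d k t.2.2) (qcY d k t.2.1)) (Dk d (K - k - 1))) : ℝ) :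
        ℂ) := by
    apply Complex.ext
    · simp [CX.v, hN, bp_re]
    · simp [CX.v, hN, bp_re]
  rw [e, ev2_mu, ev2_mu, e_sb, ev2_ad, Dk_ev]
  unfold HD Rc
  obtain ⟨m, rfl⟩ := Nat.exists_eq_add_of_le hk
  have e2 : k + 1 + m - k - 1 = m := by omega
  rw [e2]
  have hD' : ((Dc d x.re x.im : ℝ) : ℂ) ≠ 0 := by exact_mod_cast hD
  push_cast
  field_simp
  linear_combination (-(ev2 x.re x.im (qcY d k t.2.2) : ℂ) *
    ((Dc d x.re x.im : ℝ) : ℂ) ^ m * ((Dc d x.re x.im : ℝ) : ℂ) ^ (k + 1)) * I_sq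

theorem v_cXt (z0 z1 z2 : ℤ) : CX.v (pt7 l η q x) (cXt z0 z1 z2) =
    (z0 : ℂ) + ((z1 : ℂ) + z2 * I) * x := by
  unfold cXt
  rw [CX.v_add, v_cZ, CX.v_sc2, v_cx]
  push_cast
  ring

theorem v_mapC {ι : Type} (L : List ι) (f : ι → ℂ) (c : ℂ) :
    (L.map fun t => c * f t).sum = c * (L.map f).sum := List.sum_map_mul_left ..

theorem sum_reC {ι : Type} (L : List ι) (f : ι → ℂ) :
    (L.map f).sum.re = (L.map fun t => (f t).re).sum := by
  induction L with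
  | nil => simp
  | cons t L ih => simp [ih]

theorem EGc_re (z0 z1 z2 : ℤ) (d : DC) {K : ℕ} {G : GrC} (hk : G.k + 1 ≤ K) :
    (EGc z0 z1 z2 d K G).re (pt7 l η q x) =
      Dc d x.re x.im ^ K * NGv d z0 ((z1 : ℂ) + z2 * I) G x q η := by
  have e : (EGc z0 z1 z2 d K G).re (pt7 l η q x) = (CX.v (pt7 l η q x) (CX.mul (CX.pw cP G.j)
    (CX.add (CX.mI (CX.sc2 z1 z2 (CX.sum (fun t => CX.rm (apE (adC G.j t.1)) (hM d K G.k t)) G.l)))
      (CX.mul (CX.cj (CX.mul cP (cXt z0 z1 z2)))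
        (CX.sum (fun t => CX.rm (Ex.sc 2 (apE t.1)) (hN d K G.k t)) G.l))))).re := rfl
  rw [e, CX.v_mul, CX.v_pw, CX.v_add, CX.v_mI, CX.v_sc2, CX.v_mul, CX.v_cj, CX.v_mul, CX.v_sum,
    CX.v_sum, v_cXt, v_cP]
  have e1 : ∀ t ∈ G.l, CX.v (pt7 l η q x) (CX.rm (apE (adC G.j t.1)) (hM d K G.k t)) =
      ((Dc d x.re x.im ^ K : ℝ) : ℂ) * ((af (adC G.j t.1) η : ℂ) * HD d G.k t.2.1 t.2.2 x) := by
    intro t _
    rw [CX.v_rm, ap_re, v_hM l η q x d (by omega)]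
    ring
  have e2 : ∀ t ∈ G.l, CX.v (pt7 l η q x) (CX.rm (Ex.sc 2 (apE t.1)) (hN d K G.k t)) =
      ((Dc d x.re x.im ^ K : ℝ) : ℂ) * (2 * (af t.1 η : ℂ) *
        (HD d (G.k + 1) (qcX d G.k t.2.1) (qcX d G.k t.2.2) x +
        I * HD d (G.k + 1) (qcY d G.k t.2.1) (qcY d G.k t.2.2) x)) := by
    intro t _
    have e3 : (Ex.sc 2 (apE t.1)).re (pt7 l η q x) = 2 * af t.1 η := by
      show ((2 : ℤ) : ℝ) * (apE t.1).re (pt7 l η q x) = _
      rw [ap_re]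
      push_cast
      ring
    rw [CX.v_rm, e3, v_hN l η q x d hk]
    push_cast
    ring
  rw [List.map_congr_left e1, List.map_congr_left e2, v_mapC, v_mapC]
  have key : ∀ L : List (AP × BP × BP), (L.map fun t => q ^ G.j * (I * ((z1 : ℂ) + z2 * I) *
      (aC1 G.j t.1 η : ℂ) * HD d G.k t.2.1 t.2.2 x + (aC G.j t.1 η : ℂ) *
      (HD d (G.k + 1) (qcX d G.k t.2.1) (qcX d G.k t.2.2) x +
        I * HD d (G.k + 1) (qcY d G.k t.2.1) (qcY d G.k t.2.2) x) *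
      conj (q * ((z0 : ℂ) + ((z1 : ℂ) + z2 * I) * x)))).sum =
      pp q η ^ G.j * (I * (((z1 : ℂ) + z2 * I) * (L.map fun t =>
        (af (adC G.j t.1) η : ℂ) * HD d G.k t.2.1 t.2.2 x).sum) +
      conj (pp q η * ((z0 : ℂ) + ((z1 : ℂ) + z2 * I) * x)) * (L.map fun t =>
        2 * (af t.1 η : ℂ) * (HD d (G.k + 1) (qcX d G.k t.2.1) (qcX d G.k t.2.2) x +
          I * HD d (G.k + 1) (qcY d G.k t.2.1) (qcY d G.k t.2.2) x)).sum) := by
    intro L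
    have hc : ∀ W : ℂ, conj (pp q η * W) =
        ((Real.sin (η / 2) * Real.cos (η / 2) : ℝ) : ℂ) * conj (q * W) := by
      intro W
      unfold pp
      rw [mul_assoc, map_mul, conj_ofReal]
    have hpp : pp q η = ((Real.sin (η / 2) * Real.cos (η / 2) : ℝ) : ℂ) * q := rfl
    induction L with
    | nil => simp
    | cons t L ih =>
      rw [List.map_cons, List.sum_cons, ih, List.map_cons, List.sum_cons, List.map_cons,
        List.sum_cons, aC1_eq, aC_eq, hc, hpp]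
      push_cast
      ring
  unfold NGv
  have e4 : ∀ t ∈ G.l, NPotv d z0 ((z1 : ℂ) + z2 * I) G.j G.k t x q η =
      (q ^ G.j * (I * ((z1 : ℂ) + z2 * I) *
      (aC1 G.j t.1 η : ℂ) * HD d G.k t.2.1 t.2.2 x + (aC G.j t.1 η : ℂ) *
      (HD d (G.k + 1) (qcX d G.k t.2.1) (qcX d G.k t.2.2) x +
        I * HD d (G.k + 1) (qcY d G.k t.2.1) (qcY d G.k t.2.2) x) *
      conj (q * ((z0 : ℂ) + ((z1 : ℂ) + z2 * I) * x)))).re := by
    intro t _
    unfold NPotv NPv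
    push_cast
    rfl
  rw [List.map_congr_left e4, ← sum_reC, key, ← re_ofReal_mul]
  congr 1
  push_cast
  ring

theorem v_cMw {j : ℕ} (hj : j ≤ 2) : CX.v (pt7 l η q x) (cMw j) =
    conj (wx x q (Real.sin η) (Real.cos η)) ^ j * e0 (Real.sin η) (Real.cos η) := by
  unfold cMw
  rw [CX.v_mul, CX.v_pw, CX.v_pw, CX.v_cj, v_cE, v_cW, ← ww_wx, ww_wt, ← ee_sq, map_mul]
  have h := ee_conj η
  generalize conj (ee η) = f at *
  generalize ee η = e at *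
  generalize conj (wt q x η) = z
  interval_cases j
  · simp
  · simp only [pow_one]
    linear_combination (-e * z) * h
  · simp only [pow_two, pow_zero, Nat.sub_self]
    linear_combination (-(z ^ 2) - z ^ 2 * (f * e)) * h

theorem EMc_re (z0 z1 z2 : ℤ) (d : DC) (K h : ℕ) (t : ℕ × ℕ × ℤ × ℤ) (ht : t.2.1 ≤ 2) :
    (EMc z0 z1 z2 d K h t).re (pt7 l η q x) = Dc d x.re x.im ^ K *
      ((((t.2.2.1 : ℂ) + (t.2.2.2 : ℂ) * I) * ((l : ℂ) ^ t.1 *
        conj (wx x q (Real.sin η) (Real.cos η)) ^ t.2.1)) * e0 (Real.sin η) (Real.cos η) *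
        (((z1 : ℂ) + z2 * I) * x ^ 2 + 2 * z0 * x)).re := by
  have e : (EMc z0 z1 z2 d K h t).re (pt7 l η q x) = (l ^ t.1 * (CX.v (pt7 l η q x)
      (CX.mul (CX.sc2 t.2.2.1 t.2.2.2 (cMw t.2.1))
      (CX.mul cx (CX.add (cZ (Int.mul 2 z0) 0) (CX.sc2 z1 z2 cx))))).re) *
      (xo.re (pt7 l η q x) ^ (h - 2) * ev2 x.re x.im (Dk d K)) := rfl
  have e2 : Int.mul 2 z0 = 2 * z0 := rfl
  rw [e, CX.v_mul, CX.v_sc2, v_cMw l η q x ht, CX.v_mul, CX.v_add, v_cZ, CX.v_sc2, v_cx, v_xo,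
    one_pow, Dk_ev, one_mul, e2]
  have e5 : (((t.2.2.1 : ℂ) + (t.2.2.2 : ℂ) * I) * ((l : ℂ) ^ t.1 *
        conj (wx x q (Real.sin η) (Real.cos η)) ^ t.2.1)) * e0 (Real.sin η) (Real.cos η) *
        (((z1 : ℂ) + z2 * I) * x ^ 2 + 2 * z0 * x) = ((l ^ t.1 : ℝ) : ℂ) *
      ((((t.2.2.1 : ℂ) + (t.2.2.2 : ℂ) * I) *
        (conj (wx x q (Real.sin η) (Real.cos η)) ^ t.2.1 * e0 (Real.sin η) (Real.cos η))) *
        (x * ((((2 * z0 : ℤ) : ℂ) + I * ((0 : ℤ) : ℂ)) + ((z1 : ℂ) + z2 * I) * x))) := by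
    push_cast
    ring
  rw [e5, re_ofReal_mul]
  ring

theorem EMcs_re (z0 z1 z2 : ℤ) (d : DC) (K h : ℕ) {L : CL} (hL : ∀ t ∈ L, t.2.1 ≤ 2) :
    (L.map fun t => (EMc z0 z1 z2 d K h t).re (pt7 l η q x)).sum = Dc d x.re x.im ^ K *
      MTv z0 ((z1 : ℂ) + z2 * I) L l (wx x q (Real.sin η) (Real.cos η))
        (e0 (Real.sin η) (Real.cos η)) x := by
  rw [List.map_congr_left fun t ht => EMc_re l η q x z0 z1 z2 d K h t (hL t ht), map_mul_l]
  congr 1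
  unfold MTv MSc
  generalize wx x q (Real.sin η) (Real.cos η) = w
  generalize e0 (Real.sin η) (Real.cos η) = e
  have e3 : (((z0 : ℝ)) : ℂ) = (z0 : ℂ) := by push_cast; rfl
  rw [e3]
  generalize ((z1 : ℂ) + z2 * I) * x ^ 2 + 2 * z0 * x = W
  clear hL
  induction L with
  | nil => simp
  | cons t L ih =>
    rw [List.map_cons, List.sum_cons, ih, List.map_cons, List.sum_cons, ← add_re]
    congr 1
    ring

/-- the field of one side at `w` -/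
noncomputable def Bf (s : ℤ) (gm cR cI : ℤ) (f : Fl) (l : ℝ) (w : ℂ) : ℂ :=
  gm * w + ((cR : ℂ) + cI * I) + s * l * (((f.aR : ℂ) + f.aI * I) * w + ((f.bR : ℂ) + f.bI * I))

theorem v_cGv (Fd s gm cR cI : ℤ) (fl : Fl) : ‖CX.v (pt7 l η q x) (cGv Fd s gm cR cI fl)‖ ^ 2 =
    ‖Bf s gm cR cI fl l (wx x q (Real.sin η) (Real.cos η)) -
      Fd * e0 (Real.sin η) (Real.cos η)‖ ^ 2 := by
  have h1 : ee η * CX.v (pt7 l η q x) (cGv Fd s gm cR cI fl) =
      Bf s gm cR cI fl l (wx x q (Real.sin η) (Real.cos η)) -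
        Fd * e0 (Real.sin η) (Real.cos η) := by
    unfold cGv Bf
    rw [CX.v_add, CX.v_add, CX.v_add, CX.v_sc, CX.v_sc2, CX.v_sc, CX.v_rm, CX.v_add, CX.v_sc2,
      CX.v_sc2, CX.v_cj, v_cE, v_cW, ← ww_wx, ww_wt, ← ee_sq]
    have h := ee_conj η
    have e1 : (Ex.sc s (Ex.va 0)).re (pt7 l η q x) = s * l := rfl
    rw [e1]
    generalize conj (ee η) = f at *
    generalize ee η = e at *
    push_cast
    linear_combination ((cR : ℂ) + cI * I + s * l * (fl.bR + fl.bI * I)) * h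
  rw [← h1, norm_mul, ee_norm, one_mul]

theorem eCn_re (rd s r0 r1 r2 : ℤ) : (eCn rd s r0 r1 r2).re (pt7 l η q x) =
    rd * (‖wx x q (Real.sin η) (Real.cos η)‖ ^ 2 - 1) +
      s * l * rF r0 r1 r2 (wx x q (Real.sin η) (Real.cos η)) := by
  have e : (eCn rd s r0 r1 r2).re (pt7 l η q x) = rd * ((CX.nsq cW).re (pt7 l η q x) +
      ((-1 : ℤ) : ℝ) * xo.re (pt7 l η q x) ^ 2) + (s * l) * (r0 * xo.re (pt7 l η q x) ^ 2 +
      (r1 * (CX.nsq (CX.add cW (CX.cj cE))).re (pt7 l η q x) +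
        r2 * (CX.nsq cW).re (pt7 l η q x))) := rfl
  have e2 : ‖wt q x η + conj (ee η)‖ ^ 2 = ‖ww q x η + 1‖ ^ 2 := by
    have h1 : ww q x η + 1 = ee η * (wt q x η + conj (ee η)) := by
      rw [ww_wt]
      linear_combination (-1 : ℂ) * ee_conj η
    rw [h1, norm_mul, ee_norm, one_mul]
  rw [e, CX.v_nsq, CX.v_nsq, CX.v_add, CX.v_cj, v_cE, v_cW, v_xo, e2, ← norm_ww, ← ww_wx]
  unfold rF
  push_cast
  ring

theorem eDs_re (s tn sn td : ℤ) : (eDs s tn sn td).re (pt7 l η q x) =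
    dpv td tn sn s x q (Real.sin η) (Real.cos η) := by
  have hA : (Ex.sc 2 xSC).re (pt7 l η q x) = Real.sin η := by
    show ((2 : ℤ) : ℝ) * (Real.sin (η / 2) * Real.cos (η / 2)) = _
    rw [sin_half η]
    push_cast
    ring
  have hB : cE.i.re (pt7 l η q x) = Real.cos η := by
    show Real.cos (η / 2) ^ 2 + ((-1 : ℤ) : ℝ) * Real.sin (η / 2) ^ 2 = _
    rw [cos_half η]
    push_cast
    ring
  obtain ⟨Y, hY⟩ : ∃ Y, Y = CX.add (CX.sc 2 cP) (CX.rm (Ex.sc (Int.mul 2 s) (Ex.sc 2 xSC)) cx) :=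
    ⟨_, rfl⟩
  obtain ⟨U, hU⟩ : ∃ U : CX, U = ⟨Ex.add (Ex.sc (Int.mul (Int.mul 2 s) td) (Ex.sc 2 xSC))
      (Ex.sc (Int.mul (-2) tn) cE.i), Ex.add (Ex.sc (Int.mul (Int.mul 2 s) tn) (Ex.sc 2 xSC))
      (Ex.sc (Int.add td (Int.neg sn)) cE.i)⟩ := ⟨_, rfl⟩
  have e : (eDs s tn sn td).re (pt7 l η q x) = ((Int.mul 4 (Int.add td sn) : ℤ) : ℝ) *
      xo.re (pt7 l η q x) ^ 2 + ((-1 : ℤ) : ℝ) * (((Int.add td sn : ℤ) : ℝ) *
      (CX.nsq Y).re (pt7 l η q x) + ((2 : ℤ) : ℝ) * (CX.v (pt7 l η q x) (CX.mul Y U)).re +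
      (((Int.mul 4 td : ℤ) : ℝ) * (Ex.sc 2 xSC).re (pt7 l η q x) ^ 2 +
      (((Int.add td sn : ℤ) : ℝ) * cE.i.re (pt7 l η q x) ^ 2 +
      ((Int.mul (Int.mul (-4) s) tn : ℤ) : ℝ) * ((Ex.sc 2 xSC).re (pt7 l η q x) *
        cE.i.re (pt7 l η q x))))) := by
    rw [hY, hU]
    rfl
  have vY : CX.v (pt7 l η q x) Y = (Real.sin η : ℂ) * q + 2 * (s : ℝ) * (Real.sin η : ℂ) * x := by
    rw [hY, CX.v_add, CX.v_sc, CX.v_rm, v_cP, v_cx]
    have h3 : (Ex.sc (Int.mul 2 s) (Ex.sc 2 xSC)).re (pt7 l η q x) = 2 * s * Real.sin η := by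
      show ((Int.mul 2 s : ℤ) : ℝ) * (Ex.sc 2 xSC).re (pt7 l η q x) = _
      rw [hA, imul_cast']
      push_cast
      ring
    rw [h3]
    unfold pp
    rw [sin_half η]
    push_cast
    ring
  have vU : CX.v (pt7 l η q x) U = 2 * (s : ℝ) * (Real.sin η : ℂ) * ((td : ℝ) + I * (tn : ℝ)) +
      I * (Real.cos η : ℂ) * ((td : ℝ) + 2 * I * (tn : ℝ) - (sn : ℝ)) := by
    rw [hU]
    apply Complex.ext
    · show ((Int.mul (Int.mul 2 s) td : ℤ) : ℝ) * (Ex.sc 2 xSC).re (pt7 l η q x) +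
        ((Int.mul (-2) tn : ℤ) : ℝ) * cE.i.re (pt7 l η q x) = _
      rw [hA, hB, imul_cast', imul_cast', imul_cast']
      simp only [add_re, mul_re, mul_im, sub_re, add_im, sub_im, ofReal_re, ofReal_im, I_re, I_im,
        re_ofNat, im_ofNat]
      push_cast
      ring
    · show ((Int.mul (Int.mul 2 s) tn : ℤ) : ℝ) * (Ex.sc 2 xSC).re (pt7 l η q x) +
        ((Int.add td (Int.neg sn) : ℤ) : ℝ) * cE.i.re (pt7 l η q x) = _
      rw [hA, hB, imul_cast', imul_cast', iadd_cast', ineg_cast']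
      simp only [add_re, mul_re, mul_im, sub_re, add_im, sub_im, ofReal_re, ofReal_im, I_re, I_im,
        re_ofNat, im_ofNat]
      push_cast
      ring
  rw [e, hA, hB, v_xo, CX.v_nsq, CX.v_mul, vY, vU, imul_cast', iadd_cast', imul_cast', imul_cast',
    imul_cast']
  unfold dpv
  push_cast
  ring

end val

end Pool.Agent.Helper42.CKC
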